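import Mathlib

/-!
# Simple polygonal arcs in the plane
-/

namespace Pool.Agent.Helper82_Obs

/-- the plane -/
abbrev E : Type := ℝ × ℝ

/-- `PolyArc S p q`: the set `S` is a simple polygonal arc from `p` to `q`. -/
inductive PolyArc : Set E → E → E → Prop
  | seg {p q : E} (h : p ≠ q) : PolyArc (segment ℝ p q) p q
  | snoc {S : Set E} {p q r : E} (hS : PolyArc S p q) (h : q ≠ r)
      (hi : segment ℝ q r ∩ S ⊆ {q}) : PolyArc (S ∪ segment ℝ q r) p r

theorem PolyArc.left_mem {S : Set E} {p q : E} (h : PolyArc S p q) : p ∈ S := by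
  induction h with
  | seg h => exact left_mem_segment ℝ _ _
  | snoc hS h hi ih => exact Or.inl ih

theorem PolyArc.right_mem {S : Set E} {p q : E} (h : PolyArc S p q) : q ∈ S := by
  induction h with
  | seg h => exact right_mem_segment ℝ _ _
  | snoc hS h hi ih => exact Or.inr (right_mem_segment ℝ _ _)

theorem isCompact_seg (p q : E) : IsCompact (segment ℝ p q) := by
  rw [← Path.range_segment]
  exact isCompact_range (Path.continuous _)

theorem PolyArc.isCompact {S : Set E} {p q : E} (h : PolyArc S p q) : IsCompact S := by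
  induction h with
  | seg h => exact isCompact_seg _ _
  | snoc hS h hi ih => exact ih.union (isCompact_seg _ _)

theorem PolyArc.ne {S : Set E} {p q : E} (h : PolyArc S p q) : p ≠ q := by
  induction h with
  | seg h => exact h
  | snoc hS h hi ih =>
    rintro rfl
    have := hi ⟨right_mem_segment ℝ _ _, hS.left_mem⟩
    exact h this.symm

/-- concatenation -/
theorem PolyArc.concat {X Y : Set E} {a b c : E} (hX : PolyArc X a b) (hY : PolyArc Y b c)
    (h : X ∩ Y ⊆ {b}) : PolyArc (X ∪ Y) a c := by
  induction hY with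
  | seg h' => exact PolyArc.snoc hX h' (by rw [Set.inter_comm]; exact h)
  | @snoc S p q r hS h' hi ih =>
    have h1 := ih hX (fun x hx => h ⟨hx.1, Or.inl hx.2⟩)
    rw [← Set.union_assoc]
    refine PolyArc.snoc h1 h' ?_
    rintro x ⟨hx1, hx2 | hx2⟩
    · have h2 := h ⟨hx2, Or.inr hx1⟩
      have h3 : x ∈ S := by
        rw [h2]
        exact hS.left_mem
      exact hi ⟨hx1, h3⟩
    · exact hi ⟨hx1, hx2⟩

end Pool.Agent.Helper82_Obs
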