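import Pool.Agent.Helper82_Obs.Split

/-!
# Attaching a thin triangle to a polygonal region
-/

namespace Pool.Agent.Helper82_Obs

open Topology

/-- the determinant of two vectors of the plane -/
def det (u w : E) : ℝ := u.1 * w.2 - u.2 * w.1

/-- first coordinate with respect to the frame `(y, n, v)` -/
noncomputable def ca (y n v z : E) : ℝ := det (z - y) v / det n v

/-- second coordinate with respect to the frame `(y, n, v)` -/
noncomputable def cb (y n v z : E) : ℝ := det n (z - y) / det n v

theorem recon {n v : E} (h : det n v ≠ 0) (y z : E) :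
    z = y + ca y n v z • n + cb y n v z • v := by
  have k1 : ca y n v z * n.1 + cb y n v z * v.1 = z.1 - y.1 := by
    unfold ca cb
    rw [div_mul_eq_mul_div, div_mul_eq_mul_div, ← add_div, div_eq_iff h]
    simp only [det, Prod.fst_sub, Prod.snd_sub]
    ring
  have k2 : ca y n v z * n.2 + cb y n v z * v.2 = z.2 - y.2 := by
    unfold ca cb
    rw [div_mul_eq_mul_div, div_mul_eq_mul_div, ← add_div, div_eq_iff h]
    simp only [det, Prod.fst_sub, Prod.snd_sub]
    ring
  ext
  · simp only [Prod.fst_add, Prod.smul_fst, smul_eq_mul]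
    linarith
  · simp only [Prod.snd_add, Prod.smul_snd, smul_eq_mul]
    linarith

theorem ca_comb {n v : E} (h : det n v ≠ 0) (y : E) (s t : ℝ) :
    ca y n v (y + s • n + t • v) = s := by
  unfold ca
  rw [div_eq_iff h]
  simp only [det, Prod.fst_add, Prod.smul_fst, Prod.fst_sub, Prod.snd_sub, smul_eq_mul,
    Prod.snd_add, Prod.smul_snd]
  ring

theorem cb_comb {n v : E} (h : det n v ≠ 0) (y : E) (s t : ℝ) :
    cb y n v (y + s • n + t • v) = t := by
  unfold cb
  rw [div_eq_iff h]
  simp only [det, Prod.fst_add, Prod.smul_fst, Prod.fst_sub, Prod.snd_sub, smul_eq_mul,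
    Prod.snd_add, Prod.smul_snd]
  ring

theorem continuous_ca (y n v : E) : Continuous (ca y n v) := by
  unfold ca det
  fun_prop

theorem continuous_cb (y n v : E) : Continuous (cb y n v) := by
  unfold cb det
  fun_prop

theorem ca_affine (y n v x z : E) {s t : ℝ} (h : s + t = 1) :
    ca y n v (s • x + t • z) = s * ca y n v x + t * ca y n v z := by
  have e : t = 1 - s := by linarith
  subst e
  simp only [ca, det, Prod.fst_add, Prod.smul_fst, Prod.fst_sub, Prod.snd_sub, smul_eq_mul,
    Prod.snd_add, Prod.smul_snd]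
  ring

theorem cb_affine (y n v x z : E) {s t : ℝ} (h : s + t = 1) :
    cb y n v (s • x + t • z) = s * cb y n v x + t * cb y n v z := by
  have e : t = 1 - s := by linarith
  subst e
  simp only [cb, det, Prod.fst_add, Prod.smul_fst, Prod.fst_sub, Prod.snd_sub, smul_eq_mul,
    Prod.snd_add, Prod.smul_snd]
  ring

/-- polygonal regions -/
structure Reg (C : Set E) : Prop where
  isOpen : IsOpen C
  conn : IsConnected C
  poly : ClosedPoly (frontier C)
  reg : ∀ z ∈ frontier C, z ∈ closure ((closure C)ᶜ)

/-- an open set is disjoint from its frontier -/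
theorem IsOpen.not_mem_frontier {C : Set E} (h : IsOpen C) {z : E} (hz : z ∈ frontier C) :
    z ∉ C := by
  rw [h.frontier_eq] at hz
  exact hz.2

/-- a preconnected set disjoint from the frontier of an open set `C` which meets `C` is contained
in `C` -/
theorem subset_of_meets {C B : Set E} (hC : IsOpen C) (hB : IsPreconnected B)
    (h : ∀ z ∈ B, z ∉ frontier C) (hm : (B ∩ C).Nonempty) : B ⊆ C := by
  refine hB.subset_left_of_subset_union hC (isClosed_closure (s := C)).isOpen_compl ?_ ?_ hm
  · rw [Set.disjoint_compl_right_iff_subset]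
    exact subset_closure
  · intro z hz
    by_cases h1 : z ∈ C
    · exact Or.inl h1
    · right
      intro h2
      apply h z hz
      rw [hC.frontier_eq]
      exact ⟨h2, h1⟩

/-- a preconnected set disjoint from the frontier of an open set `C` which contains a point outside
of the closure of `C` is disjoint from the closure of `C` -/
theorem disjoint_of_meets {C B : Set E} (hC : IsOpen C) (hB : IsPreconnected B)
    (h : ∀ z ∈ B, z ∉ frontier C) (hm : ∃ z ∈ B, z ∉ closure C) : ∀ z ∈ B, z ∉ closure C := by
  obtain ⟨x, hx, hxC⟩ := hm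
  intro z hz hzC
  have h1 : z ∈ C := by
    by_contra h1
    apply h z hz
    rw [hC.frontier_eq]
    exact ⟨hzC, h1⟩
  exact hxC (subset_closure (subset_of_meets hC hB h ⟨z, hz, h1⟩ hx))

/-- the attached set -/
def wedge (y n v : E) (s : ℝ) : Set E :=
  {z | 0 ≤ ca y n v z ∧ |cb y n v z| < s * (1 - ca y n v z)}

/-- the closed triangle -/
def ctri (y n v : E) (s : ℝ) : Set E :=
  {z | 0 ≤ ca y n v z ∧ |cb y n v z| ≤ s * (1 - ca y n v z)}

theorem isClosed_ctri (y n v : E) (s : ℝ) : IsClosed (ctri y n v s) := by
  have h1 := continuous_ca y n v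
  have h2 := continuous_cb y n v
  exact (isClosed_le continuous_const h1).inter
    (isClosed_le (h2.abs) (continuous_const.mul (continuous_const.sub h1)))

theorem wedge_subset (y n v : E) (s : ℝ) : wedge y n v s ⊆ ctri y n v s :=
  fun _ hz => ⟨hz.1, hz.2.le⟩

theorem convex_wedge (y n v : E) (s : ℝ) : Convex ℝ (wedge y n v s) := by
  intro x hx z hz a b ha hb hab
  obtain ⟨h1, h2⟩ := hx
  obtain ⟨h3, h4⟩ := hz
  refine ⟨?_, ?_⟩
  · rw [ca_affine y n v x z hab]
    positivity
  · rw [ca_affine y n v x z hab, cb_affine y n v x z hab]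
    rw [abs_lt] at h2 h4 ⊢
    have e : s * (1 - (a * ca y n v x + b * ca y n v z)) =
        a * (s * (1 - ca y n v x)) + b * (s * (1 - ca y n v z)) := by
      have : b = 1 - a := by linarith
      subst this
      ring
    rw [e]
    rcases eq_or_lt_of_le ha with ha' | ha'
    · subst ha'
      have hb1 : b = 1 := by linarith
      subst hb1
      constructor <;> linarith [h2.1, h2.2, h4.1, h4.2]
    · constructor
      · nlinarith [mul_lt_mul_of_pos_left h2.1 ha', mul_le_mul_of_nonneg_left h4.1.le hb]
      · nlinarith [mul_lt_mul_of_pos_left h2.2 ha', mul_le_mul_of_nonneg_left h4.2.le hb]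

end Pool.Agent.Helper82_Obs
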