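import Pool.Agent.Helper82_Obs.Attach

/-!
# Attaching a thin triangle to a polygonal region: the main step
-/

namespace Pool.Agent.Helper82_Obs

open Topology Filter

theorem mem_base {n v : E} (hD : det n v ≠ 0) (y : E) {s : ℝ} (hs : 0 < s) (z : E) :
    z ∈ segment ℝ (y - s • v) (y + s • v) ↔ ca y n v z = 0 ∧ |cb y n v z| ≤ s := by
  have e : y - s • v = y + (-s) • v := by module
  rw [e, seg_param y v (by linarith : -s ≤ s)]
  constructor
  · rintro ⟨t, ht, rfl⟩
    have h1 : y + t • v = y + (0 : ℝ) • n + t • v := by module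
    simp only [h1]
    rw [ca_comb hD, cb_comb hD]
    exact ⟨rfl, abs_le.2 ht⟩
  · rintro ⟨h1, h2⟩
    refine ⟨cb y n v z, abs_le.1 h2, ?_⟩
    have h3 := recon hD y z
    rw [h1] at h3
    simp only
    rw [h3]
    conv_rhs => rw [← h3]
    rw [← h3]
    nth_rewrite 2 [h3]
    module

theorem mem_side {n v : E} (hD : det n v ≠ 0) (y : E) (σ : ℝ) (z : E) :
    z ∈ segment ℝ (y + σ • v) (y + n) ↔
      ∃ t : ℝ, 0 ≤ t ∧ t ≤ 1 ∧ z = y + t • n + (σ * (1 - t)) • v := by
  rw [segment_eq_image_lineMap]
  constructor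
  · rintro ⟨t, ht, rfl⟩
    refine ⟨t, ht.1, ht.2, ?_⟩
    simp only [AffineMap.lineMap_apply_module]
    module
  · rintro ⟨t, h1, h2, rfl⟩
    refine ⟨t, ⟨h1, h2⟩, ?_⟩
    simp only [AffineMap.lineMap_apply_module]
    module

theorem closure_inter_open {s t : Set E} (ht : IsOpen t) {z : E} (hz : z ∈ closure s)
    (hzt : z ∈ t) : z ∈ closure (s ∩ t) := by
  rw [mem_closure_iff] at hz ⊢
  intro o ho hzo
  obtain ⟨x, hx1, hx2⟩ := hz (o ∩ t) (ho.inter ht) ⟨hzo, hzt⟩
  exact ⟨x, hx1.1, hx2, hx1.2⟩

theorem ctri_subset_closure {n v : E} (hD : det n v ≠ 0) (y : E) {s : ℝ} (hs : 0 < s) :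
    ctri y n v s ⊆ closure (wedge y n v s) := by
  intro z hz
  have hc : Tendsto (fun ε : ℝ => (1 - ε) • z + ε • (y + (1 / 2 : ℝ) • n + (0 : ℝ) • v))
      (𝓝[>] 0) (𝓝 z) := by
    have h1 : Continuous (fun ε : ℝ => (1 - ε) • z + ε • (y + (1 / 2 : ℝ) • n + (0 : ℝ) • v)) := by
      fun_prop
    have h2 := h1.tendsto 0
    simp only [sub_zero, one_smul, zero_smul, add_zero] at h2
    have h3 := h2.mono_left (nhdsWithin_le_nhds (s := Set.Ioi (0 : ℝ)))
    simpa using h3
  refine mem_closure_of_tendsto hc ?_
  have h4 : ∀ᶠ ε : ℝ in 𝓝[>] 0, ε < 1 := nhdsWithin_le_nhds (Iio_mem_nhds zero_lt_one)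
  filter_upwards [h4, self_mem_nhdsWithin] with ε h5 h6
  have h6' : 0 < ε := h6
  have hsum : (1 - ε) + ε = 1 := by ring
  constructor
  · rw [ca_affine y n v _ _ hsum, ca_comb hD]
    have := mul_nonneg (by linarith : (0 : ℝ) ≤ 1 - ε) hz.1
    linarith
  · rw [ca_affine y n v _ _ hsum, cb_affine y n v _ _ hsum, ca_comb hD, cb_comb hD]
    have h7 : |(1 - ε) * cb y n v z + ε * 0| = (1 - ε) * |cb y n v z| := by
      rw [mul_zero, add_zero, abs_mul, abs_of_nonneg (by linarith : (0 : ℝ) ≤ 1 - ε)]
    rw [h7]
    have h8 := mul_le_mul_of_nonneg_left hz.2 (by linarith : (0 : ℝ) ≤ 1 - ε)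
    nlinarith [mul_pos h6' hs]

theorem attach_core {C A : Set E} {y n v : E} {s : ℝ} (hC : Reg C) (hD : det n v ≠ 0)
    (hs : 0 < s) (hA : PolyArc A (y + s • v) (y - s • v))
    (hF : frontier C = A ∪ segment ℝ (y - s • v) (y + s • v))
    (hi : A ∩ segment ℝ (y - s • v) (y + s • v) ⊆ {y - s • v, y + s • v})
    (hT : ∀ z ∈ ctri y n v s, z ∈ closure C → ca y n v z = 0)
    (hend : ∀ z ∈ ({y - s • v, y + s • v} : Set E), z ∈ closure ((closure C ∪ ctri y n v s)ᶜ)) :
    Reg (C ∪ wedge y n v s) ∧ closure (C ∪ wedge y n v s) = closure C ∪ ctri y n v s := by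
  have hm : y - s • v = y + (-s) • v := by module
  have hends : y - s • v = y + (0 : ℝ) • n + (-s) • v ∧ y + s • v = y + (0 : ℝ) • n + s • v := by
    constructor <;> module
  -- the base
  have base : ∀ z, z ∈ segment ℝ (y - s • v) (y + s • v) ↔ ca y n v z = 0 ∧ |cb y n v z| ≤ s :=
    mem_base hD y hs
  have tribase : ∀ z ∈ ctri y n v s, z ∈ closure C → z ∈ segment ℝ (y - s • v) (y + s • v) := by
    intro z hz hzC
    rw [base]
    have h1 := hT z hz hzC
    refine ⟨h1, ?_⟩
    have h2 := hz.2
    rw [h1] at h2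
    linarith
  have baseF : ∀ z ∈ segment ℝ (y - s • v) (y + s • v), z ∈ frontier C := by
    intro z hz
    rw [hF]
    exact Or.inr hz
  have hclo : closure (C ∪ wedge y n v s) = closure C ∪ ctri y n v s := by
    apply Set.Subset.antisymm
    · refine closure_minimal ?_ (isClosed_closure.union (isClosed_ctri y n v s))
      exact Set.union_subset_union subset_closure (wedge_subset y n v s)
    · rw [closure_union]
      exact Set.union_subset_union_right _ (ctri_subset_closure hD y hs)
  have hop : IsOpen (C ∪ wedge y n v s) := by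
    rw [isOpen_iff_mem_nhds]
    rintro z (hz | hz)
    · exact Filter.mem_of_superset (hC.isOpen.mem_nhds hz) Set.subset_union_left
    · rcases lt_or_eq_of_le hz.1 with h1 | h1
      · have hU : IsOpen {z : E | 0 < ca y n v z ∧ |cb y n v z| < s * (1 - ca y n v z)} :=
          (isOpen_lt continuous_const (continuous_ca y n v)).inter
            (isOpen_lt (continuous_cb y n v).abs
              (continuous_const.mul (continuous_const.sub (continuous_ca y n v))))
        refine Filter.mem_of_superset (hU.mem_nhds ⟨h1, hz.2⟩) ?_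
        intro w hw
        exact Or.inr ⟨hw.1.le, hw.2⟩
      · have hzb : |cb y n v z| < s := by
          have := hz.2
          rw [← h1] at this
          linarith
        have hzseg : z ∈ segment ℝ (y - s • v) (y + s • v) := (base z).2 ⟨h1.symm, hzb.le⟩
        have hzA : z ∉ A := by
          intro hzA
          rcases hi ⟨hzA, hzseg⟩ with h2 | h2
          · rw [h2, hends.1, cb_comb hD, abs_neg, abs_of_pos hs] at hzb
            exact lt_irrefl _ hzb
          · rw [Set.mem_singleton_iff] at h2
            rw [h2, hends.2, cb_comb hD, abs_of_pos hs] at hzb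
            exact lt_irrefl _ hzb
        have hU : IsOpen (Aᶜ ∩ {z : E | |cb y n v z| < s * (1 - ca y n v z)}) :=
          hA.isCompact.isClosed.isOpen_compl.inter
            (isOpen_lt (continuous_cb y n v).abs
              (continuous_const.mul (continuous_const.sub (continuous_ca y n v))))
        obtain ⟨r, hr, hball⟩ := Metric.isOpen_iff.1 hU z ⟨hzA, hz.2⟩
        refine Filter.mem_of_superset (Metric.ball_mem_nhds z hr) ?_
        have key : Metric.ball z r ∩ {w | ca y n v w < 0} ⊆ C := by
          refine subset_of_meets hC.isOpen ?_ ?_ ?_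
          · refine (Convex.inter (convex_ball z r) ?_).isPreconnected
            intro x hx w hw a b ha hb hab
            simp only [Set.mem_setOf_eq] at hx hw ⊢
            rw [ca_affine y n v x w hab]
            rcases eq_or_lt_of_le ha with ha' | ha'
            · have hb1 : b = 1 := by linarith
              rw [← ha', hb1]
              linarith
            · nlinarith [mul_neg_of_pos_of_neg ha' hx, mul_nonneg hb (by linarith : 0 ≤ -ca y n v w)]
          · rintro w ⟨hw1, hw2⟩ hwF
            rw [hF] at hwF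
            rcases hwF with hwA | hws
            · exact (hball hw1).1 hwA
            · have := ((base w).1 hws).1
              simp only [Set.mem_setOf_eq] at hw2
              linarith
          · have h3 : z ∈ closure C := frontier_subset_closure (baseF z hzseg)
            rw [mem_closure_iff] at h3
            obtain ⟨w, hw1, hw2⟩ := h3 _ Metric.isOpen_ball (Metric.mem_ball_self hr)
            refine ⟨w, ⟨hw1, ?_⟩, hw2⟩
            by_contra h4
            simp only [Set.mem_setOf_eq, not_lt] at h4
            have h5 : w ∈ ctri y n v s := ⟨h4, (hball hw1).2.le⟩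
            exact IsOpen.not_mem_frontier hC.isOpen
              (baseF w (tribase w h5 (subset_closure hw2))) hw2
        intro w hw
        by_cases h4 : 0 ≤ ca y n v w
        · exact Or.inr ⟨h4, (hball hw).2⟩
        · exact Or.inl (key ⟨hw, not_le.1 h4⟩)
  have s1 : ∀ z, z ∈ segment ℝ (y - s • v) (y + n) ↔
      ∃ t : ℝ, 0 ≤ t ∧ t ≤ 1 ∧ z = y + t • n + ((-s) * (1 - t)) • v := by
    intro z
    rw [hm]
    exact mem_side hD y (-s) z
  have s2 : ∀ z, z ∈ segment ℝ (y + n) (y + s • v) ↔
      ∃ t : ℝ, 0 ≤ t ∧ t ≤ 1 ∧ z = y + t • n + (s * (1 - t)) • v := by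
    intro z
    rw [segment_symm]
    exact mem_side hD y s z
  have s1t : segment ℝ (y - s • v) (y + n) ⊆ ctri y n v s := by
    intro z hz
    obtain ⟨t, h1, h2, rfl⟩ := (s1 z).1 hz
    refine ⟨by rw [ca_comb hD]; exact h1, ?_⟩
    rw [ca_comb hD, cb_comb hD, abs_mul, abs_neg, abs_of_pos hs,
      abs_of_nonneg (by linarith : (0 : ℝ) ≤ 1 - t)]
  have s2t : segment ℝ (y + n) (y + s • v) ⊆ ctri y n v s := by
    intro z hz
    obtain ⟨t, h1, h2, rfl⟩ := (s2 z).1 hz
    refine ⟨by rw [ca_comb hD]; exact h1, ?_⟩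
    rw [ca_comb hD, cb_comb hD, abs_mul, abs_of_pos hs,
      abs_of_nonneg (by linarith : (0 : ℝ) ≤ 1 - t)]
  have s1w : ∀ z ∈ segment ℝ (y - s • v) (y + n), z ∉ wedge y n v s := by
    intro z hz hw
    obtain ⟨t, h1, h2, rfl⟩ := (s1 z).1 hz
    have h3 := hw.2
    rw [ca_comb hD, cb_comb hD, abs_mul, abs_neg, abs_of_pos hs,
      abs_of_nonneg (by linarith : (0 : ℝ) ≤ 1 - t)] at h3
    exact lt_irrefl _ h3
  have s2w : ∀ z ∈ segment ℝ (y + n) (y + s • v), z ∉ wedge y n v s := by
    intro z hz hw
    obtain ⟨t, h1, h2, rfl⟩ := (s2 z).1 hz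
    have h3 := hw.2
    rw [ca_comb hD, cb_comb hD, abs_mul, abs_of_pos hs,
      abs_of_nonneg (by linarith : (0 : ℝ) ≤ 1 - t)] at h3
    exact lt_irrefl _ h3
  have ctriside : ∀ z ∈ ctri y n v s, z ∉ wedge y n v s →
      z ∈ segment ℝ (y - s • v) (y + n) ∪ segment ℝ (y + n) (y + s • v) := by
    intro z hz hw
    have h1 : |cb y n v z| = s * (1 - ca y n v z) := by
      rcases lt_or_eq_of_le hz.2 with h | h
      · exact absurd ⟨hz.1, h⟩ hw
      · exact h
    have h2 : ca y n v z ≤ 1 := by
      have h3 := abs_nonneg (cb y n v z)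
      rw [h1] at h3
      have := nonneg_of_mul_nonneg_right h3 hs
      linarith
    rcases le_total 0 (cb y n v z) with h3 | h3
    · right
      rw [s2]
      refine ⟨ca y n v z, hz.1, h2, ?_⟩
      rw [abs_of_nonneg h3] at h1
      rw [← h1]
      exact recon hD y z
    · left
      rw [s1]
      refine ⟨ca y n v z, hz.1, h2, ?_⟩
      rw [abs_of_nonpos h3] at h1
      have h4 : -s * (1 - ca y n v z) = cb y n v z := by linarith
      rw [h4]
      exact recon hD y z
  have hAC : A ⊆ closure C := by
    intro z hz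
    apply frontier_subset_closure
    rw [hF]
    exact Or.inl hz
  have hAw : ∀ z ∈ A, z ∉ wedge y n v s := by
    intro z hz hw
    have h1 := tribase z (wedge_subset _ _ _ _ hw) (hAC hz)
    rcases hi ⟨hz, h1⟩ with h2 | h2
    · exact s1w z (by rw [h2]; exact left_mem_segment ℝ _ _) hw
    · rw [Set.mem_singleton_iff] at h2
      exact s2w z (by rw [h2]; exact right_mem_segment ℝ _ _) hw
  have hfr : frontier (C ∪ wedge y n v s) =
      (A ∪ segment ℝ (y - s • v) (y + n)) ∪ segment ℝ (y + n) (y + s • v) := by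
    rw [hop.frontier_eq, hclo]
    ext z
    constructor
    · rintro ⟨hz1, hz2⟩
      have hzC : z ∉ C := fun h => hz2 (Or.inl h)
      have hzw : z ∉ wedge y n v s := fun h => hz2 (Or.inr h)
      by_cases h1 : z ∈ ctri y n v s
      · rcases ctriside z h1 hzw with h2 | h2
        · exact Or.inl (Or.inr h2)
        · exact Or.inr h2
      · have h2 : z ∈ closure C := hz1.resolve_right h1
        have h3 : z ∈ frontier C := by
          rw [hC.isOpen.frontier_eq]
          exact ⟨h2, hzC⟩
        rw [hF] at h3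
        rcases h3 with h3 | h3
        · exact Or.inl (Or.inl h3)
        · exfalso
          apply h1
          have h4 := (base z).1 h3
          exact ⟨h4.1.ge, by rw [h4.1]; linarith [h4.2]⟩
    · have hCF : ∀ z ∈ frontier C, z ∉ C := fun z hz => IsOpen.not_mem_frontier hC.isOpen hz
      have htC : ∀ z ∈ ctri y n v s, z ∉ C := by
        intro z hz hzC
        exact hCF z (baseF z (tribase z hz (subset_closure hzC))) hzC
      rintro ((hz | hz) | hz)
      · refine ⟨Or.inl (hAC hz), ?_⟩
        rintro (h | h)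
        · exact hCF z (by rw [hF]; exact Or.inl hz) h
        · exact hAw z hz h
      · refine ⟨Or.inr (s1t hz), ?_⟩
        rintro (h | h)
        · exact htC z (s1t hz) h
        · exact s1w z hz h
      · refine ⟨Or.inr (s2t hz), ?_⟩
        rintro (h | h)
        · exact htC z (s2t hz) h
        · exact s2w z hz h
  have hyn : y + n = y + (1 : ℝ) • n + (0 : ℝ) • v := by module
  refine ⟨⟨hop, ?_, ?_, ?_⟩, hclo⟩
  · -- connected
    set B0 : Set E := segment ℝ (y - s • v) (y + s • v) with hB0
    have h1 : IsConnected (C ∪ (B0 ∩ wedge y n v s)) := by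
      refine hC.conn.subset_closure Set.subset_union_left ?_
      refine Set.union_subset subset_closure ?_
      intro z hz
      exact frontier_subset_closure (baseF z hz.1)
    have hy : y ∈ wedge y n v s := by
      have e : y = y + (0 : ℝ) • n + (0 : ℝ) • v := by module
      constructor
      · conv_rhs => rw [e]
        conv_rhs => rw [← e]
        have := ca_comb hD y 0 0
        rw [← e] at this
        rw [this]
      · have h2 := ca_comb hD y 0 0
        have h3 := cb_comb hD y 0 0
        rw [← e] at h2 h3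
        rw [h2, h3]
        simpa using hs
    have hyB : y ∈ B0 := by
      rw [hB0, base]
      have e : y = y + (0 : ℝ) • n + (0 : ℝ) • v := by module
      have h2 := ca_comb hD y 0 0
      have h3 := cb_comb hD y 0 0
      rw [← e] at h2 h3
      rw [h2, h3]
      simpa using hs.le
    have h2 : IsConnected (wedge y n v s) := ⟨⟨y, hy⟩, (convex_wedge y n v s).isPreconnected⟩
    have h3 := IsConnected.union ⟨y, ⟨Or.inr ⟨hyB, hy⟩, hy⟩⟩ h1 h2
    have h4 : C ∪ (B0 ∩ wedge y n v s) ∪ wedge y n v s = C ∪ wedge y n v s := by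
      ext z
      simp only [Set.mem_union, Set.mem_inter_iff]
      tauto
    rw [h4] at h3
    exact h3
  · -- the frontier
    have hne1 : y - s • v ≠ y + n := by
      intro h
      rw [hends.1, hyn] at h
      have := congrArg (ca y n v) h
      rw [ca_comb hD, ca_comb hD] at this
      exact zero_ne_one this
    have hne2 : y + n ≠ y + s • v := by
      intro h
      rw [hends.2, hyn] at h
      have := congrArg (ca y n v) h
      rw [ca_comb hD, ca_comb hD] at this
      exact one_ne_zero this
    have hc1 : PolyArc (A ∪ segment ℝ (y - s • v) (y + n)) (y + s • v) (y + n) := by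
      refine PolyArc.snoc hA hne1 ?_
      rintro z ⟨hz1, hz2⟩
      have h1 := tribase z (s1t hz1) (hAC hz2)
      obtain ⟨t, h2, h3, rfl⟩ := (s1 z).1 hz1
      have h4 := ((base _).1 h1).1
      rw [ca_comb hD] at h4
      subst h4
      rw [Set.mem_singleton_iff]
      module
    refine ⟨_, _, _, hc1, ?_, hfr⟩
    rintro z ⟨hz1, hz2 | hz2⟩
    · have h1 := tribase z (s2t hz1) (hAC hz2)
      obtain ⟨t, h2, h3, rfl⟩ := (s2 z).1 hz1
      have h4 := ((base _).1 h1).1
      rw [ca_comb hD] at h4
      subst h4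
      left
      module
    · obtain ⟨t, h2, h3, h4⟩ := (s2 z).1 hz1
      obtain ⟨t', h2', h3', h4'⟩ := (s1 z).1 hz2
      have h5 : t = t' := by
        rw [h4] at h4'
        have := congrArg (ca y n v) h4'
        rw [ca_comb hD, ca_comb hD] at this
        exact this
      have h6 : s * (1 - t) = -s * (1 - t') := by
        rw [h4] at h4'
        have := congrArg (cb y n v) h4'
        rw [cb_comb hD, cb_comb hD] at this
        exact this
      rw [← h5] at h6
      have h7 : t = 1 := by
        have : s * (1 - t) = 0 := by linarith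
        rcases mul_eq_zero.1 this with h8 | h8
        · linarith
        · linarith
      right
      rw [h4, h7, Set.mem_singleton_iff]
      module
  · -- regularity
    have outside : ∀ z, z ∉ closure C → (∃ t : ℝ, 0 ≤ t ∧ t ≤ 1 ∧ ∃ σ : ℝ, |σ| = s ∧
        z = y + t • n + (σ * (1 - t)) • v) → z ∈ closure ((closure C ∪ ctri y n v s)ᶜ) := by
      rintro z hzC ⟨t, h1, h2, σ, h3, rfl⟩
      have hc : Tendsto (fun ε : ℝ => y + ((1 + ε) * t) • n + ((1 + ε) * (σ * (1 - t))) • v)
          (𝓝[>] 0) (𝓝 (y + t • n + (σ * (1 - t)) • v)) := by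
        have h1 : Continuous (fun ε : ℝ => y + ((1 + ε) * t) • n +
            ((1 + ε) * (σ * (1 - t))) • v) := by fun_prop
        have h2 := h1.tendsto 0
        have h3 := h2.mono_left (nhdsWithin_le_nhds (s := Set.Ioi (0 : ℝ)))
        simpa using h3
      have h4 : y + t • n + (σ * (1 - t)) • v ∈ closure ((ctri y n v s)ᶜ) := by
        refine mem_closure_of_tendsto hc ?_
        filter_upwards [self_mem_nhdsWithin] with ε h6
        have h6' : 0 < ε := h6
        rintro ⟨-, h7⟩
        rw [ca_comb hD, cb_comb hD, abs_mul, abs_mul, h3,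
          abs_of_nonneg (by linarith : (0 : ℝ) ≤ 1 - t),
          abs_of_pos (by linarith : (0 : ℝ) < 1 + ε)] at h7
        nlinarith [mul_pos h6' hs]
      rw [Set.compl_union, Set.inter_comm]
      exact closure_inter_open isClosed_closure.isOpen_compl h4 hzC
    intro z hz
    rw [hclo]
    rw [hfr] at hz
    rcases hz with (hz | hz) | hz
    · by_cases h1 : z ∈ ctri y n v s
      · exact hend z (hi ⟨hz, tribase z h1 (hAC hz)⟩)
      · have h2 := hC.reg z (by rw [hF]; exact Or.inl hz)
        rw [Set.compl_union]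
        exact closure_inter_open (isClosed_ctri y n v s).isOpen_compl h2 h1
    · by_cases h1 : z ∈ closure C
      · obtain ⟨t, h2, h3, rfl⟩ := (s1 z).1 hz
        have h4 := hT _ (s1t hz) h1
        rw [ca_comb hD] at h4
        subst h4
        apply hend
        left
        module
      · obtain ⟨t, h2, h3, h4⟩ := (s1 z).1 hz
        exact outside z h1 ⟨t, h2, h3, -s, by rw [abs_neg, abs_of_pos hs], h4⟩
    · by_cases h1 : z ∈ closure C
      · obtain ⟨t, h2, h3, rfl⟩ := (s2 z).1 hz
        have h4 := hT _ (s2t hz) h1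
        rw [ca_comb hD] at h4
        subst h4
        apply hend
        right
        rw [Set.mem_singleton_iff]
        module
      · obtain ⟨t, h2, h3, h4⟩ := (s2 z).1 hz
        exact outside z h1 ⟨t, h2, h3, s, abs_of_pos hs, h4⟩

end Pool.Agent.Helper82_Obs
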