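import Pool.Agent.Helper82_Obs.Attach2

/-!
# Attaching a thin triangle to a polygonal region: choice of the width
-/

namespace Pool.Agent.Helper82_Obs

open Topology Filter

/-- the point with coordinates `(a, b)` -/
def phi (y n v : E) (x : ℝ × ℝ) : E := y + x.1 • n + x.2 • v

theorem continuous_phi (y n v : E) : Continuous (phi y n v) := by
  unfold phi
  fun_prop

/-- tubes around a horizontal compact segment -/
theorem tube_h (y n v : E) {a b : ℝ} {U : Set E} (hU : IsOpen U)
    (h : ∀ t, a ≤ t → t ≤ b → y + t • n ∈ U) :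
    ∃ ρ : ℝ, 0 < ρ ∧ ∀ t s, a ≤ t → t ≤ b → |s| < ρ → y + t • n + s • v ∈ U := by
  have h1 : Set.Icc a b ×ˢ ({0} : Set ℝ) ⊆ phi y n v ⁻¹' U := by
    rintro ⟨t, s⟩ ⟨ht, hs⟩
    simp only [Set.mem_singleton_iff] at hs
    subst hs
    have := h t ht.1 ht.2
    simpa [phi] using this
  obtain ⟨u, w, hu, hw, h2, h3, h4⟩ := generalized_tube_lemma isCompact_Icc isCompact_singleton
    (hU.preimage (continuous_phi y n v)) h1
  obtain ⟨ρ, hρ, h5⟩ := Metric.isOpen_iff.1 hw 0 (h3 rfl)
  refine ⟨ρ, hρ, fun t s h6 h7 h8 => ?_⟩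
  have h9 : (t, s) ∈ u ×ˢ w := ⟨h2 ⟨h6, h7⟩, h5 (by simpa [Metric.mem_ball, Real.dist_eq] using h8)⟩
  exact h4 h9

/-- tubes around a vertical compact segment -/
theorem tube_v (y n v : E) {b : ℝ} {U : Set E} (hU : IsOpen U)
    (h : ∀ s, |s| ≤ b → y + s • v ∈ U) :
    ∃ r : ℝ, 0 < r ∧ ∀ t s, |t| < r → |s| ≤ b → y + t • n + s • v ∈ U := by
  have h1 : ({0} : Set ℝ) ×ˢ Set.Icc (-b) b ⊆ phi y n v ⁻¹' U := by
    rintro ⟨t, s⟩ ⟨ht, hs⟩
    simp only [Set.mem_singleton_iff] at ht
    subst ht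
    have := h s (abs_le.2 hs)
    simpa [phi] using this
  obtain ⟨u, w, hu, hw, h2, h3, h4⟩ := generalized_tube_lemma isCompact_singleton isCompact_Icc
    (hU.preimage (continuous_phi y n v)) h1
  obtain ⟨ρ, hρ, h5⟩ := Metric.isOpen_iff.1 hu 0 (h2 rfl)
  refine ⟨ρ, hρ, fun t s h6 h7 => ?_⟩
  have h9 : (t, s) ∈ u ×ˢ w := ⟨h5 (by simpa [Metric.mem_ball, Real.dist_eq] using h6),
    h3 (abs_le.1 h7)⟩
  exact h4 h9

/-- cutting data at a point of the frontier -/
def CutAt (S : Set E) (y v : E) (s₀ : ℝ) : Prop :=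
  ∀ s : ℝ, 0 < s → s ≤ s₀ → ∃ A : Set E, PolyArc A (y + s • v) (y - s • v) ∧
    S = A ∪ segment ℝ (y - s • v) (y + s • v) ∧
    A ∩ segment ℝ (y - s • v) (y + s • v) ⊆ {y - s • v, y + s • v}

theorem smul_mem_seg (y v : E) {s t : ℝ} (h : |t| ≤ s) :
    y + t • v ∈ segment ℝ (y - s • v) (y + s • v) := by
  have h1 := abs_le.1 h
  have e : y - s • v = y + (-s) • v := by module
  rw [e, seg_param y v (by linarith : -s ≤ s)]
  exact ⟨t, h1, rfl⟩

theorem Reg.attach {C K : Set E} (hC : Reg C) (hK : IsClosed K) (hCK : Disjoint (closure C) K)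
    {y n v : E} {s₀ : ℝ} (hv : v ≠ 0) (hs₀ : 0 < s₀) (hsplit : CutAt (frontier C) y v s₀)
    (h1 : ∀ t : ℝ, 0 < t → t ≤ 1 → y + t • n ∉ closure C)
    (h2 : ∀ t : ℝ, 0 ≤ t → t ≤ 1 → y + t • n ∉ K) :
    ∃ C', Reg C' ∧ C ⊆ C' ∧ Disjoint (closure C') K ∧ ∀ t : ℝ, 0 ≤ t → t < 1 → y + t • n ∈ C' := by
  obtain ⟨A, hA, hF, hi⟩ := hsplit s₀ hs₀ le_rfl
  have hsegC : ∀ t : ℝ, |t| ≤ s₀ → y + t • v ∈ closure C := by
    intro t ht
    apply frontier_subset_closure
    rw [hF]
    exact Or.inr (smul_mem_seg y v ht)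
  have hn : n ≠ 0 := by
    rintro rfl
    have := h1 1 one_pos le_rfl
    apply this
    have h3 := hsegC 0 (by simpa using hs₀.le)
    simpa using h3
  have hD : det n v ≠ 0 := by
    intro hD
    obtain ⟨c, hc⟩ : ∃ c : ℝ, n = c • v := by
      unfold det at hD
      by_cases hv1 : v.1 = 0
      · have hv2 : v.2 ≠ 0 := by
          intro hv2
          apply hv
          ext
          · exact hv1
          · exact hv2
        refine ⟨n.2 / v.2, ?_⟩
        rw [hv1] at hD
        ext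
        · have : n.1 * v.2 = 0 := by linarith
          rcases mul_eq_zero.1 this with h | h
          · simp [h, hv1]
          · exact absurd h hv2
        · simp only [Prod.smul_snd, smul_eq_mul]
          field_simp
      · refine ⟨n.1 / v.1, ?_⟩
        ext
        · simp only [Prod.smul_fst, smul_eq_mul]
          field_simp
        · simp only [Prod.smul_snd, smul_eq_mul]
          rw [div_mul_eq_mul_div, eq_div_iff hv1]
          linarith
    have hc0 : c ≠ 0 := by
      rintro rfl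
      apply hn
      rw [hc, zero_smul]
    have hcpos : 0 < |c| := abs_pos.2 hc0
    set t := min 1 (s₀ / |c|) with ht
    have ht0 : 0 < t := lt_min one_pos (div_pos hs₀ hcpos)
    apply h1 t ht0 (min_le_left _ _)
    rw [hc, smul_smul]
    apply hsegC
    rw [abs_mul, abs_of_pos ht0]
    calc t * |c| ≤ (s₀ / |c|) * |c| := mul_le_mul_of_nonneg_right (min_le_right _ _) hcpos.le
      _ = s₀ := by field_simp
  have hends : ∀ s : ℝ, y + s • v = y + (0 : ℝ) • n + s • v := by intro s; module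
  have hAseg : ∀ t : ℝ, |t| ≤ s₀ / 2 → y + t • v ∈ Aᶜ := by
    intro t ht hA'
    have h3 : |t| ≤ s₀ := by linarith
    have e1 : y - s₀ • v = y + (0 : ℝ) • n + (-s₀) • v := by module
    rcases hi ⟨hA', smul_mem_seg y v h3⟩ with h4 | h4
    · rw [e1, hends] at h4
      have := congrArg (cb y n v) h4
      rw [cb_comb hD, cb_comb hD] at this
      rw [this, abs_neg, abs_of_pos hs₀] at ht
      linarith
    · rw [Set.mem_singleton_iff, hends, hends] at h4
      have := congrArg (cb y n v) h4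
      rw [cb_comb hD, cb_comb hD] at this
      rw [this, abs_of_pos hs₀] at ht
      linarith
  obtain ⟨r, hr, hr'⟩ := tube_v y n v hA.isCompact.isClosed.isOpen_compl hAseg
  -- the half plane
  have HP : ∀ z, 0 < ca y n v z → ca y n v z < r → |cb y n v z| ≤ s₀ / 2 → z ∉ closure C := by
    have h3 : ∀ z ∈ {z | (0 < ca y n v z ∧ ca y n v z < r) ∧ |cb y n v z| ≤ s₀ / 2},
        z ∉ closure C := by
      refine disjoint_of_meets hC.isOpen ?_ ?_ ?_
      · refine Convex.isPreconnected ?_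
        rintro x ⟨⟨hx1, hx2⟩, hx3⟩ w ⟨⟨hw1, hw2⟩, hw3⟩ a b ha hb hab
        rw [abs_le] at hx3 hw3
        have hb' : b = 1 - a := by linarith
        refine ⟨⟨?_, ?_⟩, ?_⟩
        · rw [ca_affine y n v x w hab]
          rcases eq_or_lt_of_le ha with ha' | ha'
          · have hb1 : b = 1 := by linarith
            rw [← ha', hb1]
            linarith
          · nlinarith [mul_pos ha' hx1, mul_nonneg hb hw1.le]
        · rw [ca_affine y n v x w hab]
          rcases eq_or_lt_of_le ha with ha' | ha'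
          · have hb1 : b = 1 := by linarith
            rw [← ha', hb1]
            linarith
          · nlinarith [mul_lt_mul_of_pos_left hx2 ha', mul_le_mul_of_nonneg_left hw2.le hb]
        · rw [cb_affine y n v x w hab, abs_le]
          constructor
          · nlinarith [mul_le_mul_of_nonneg_left hx3.1 ha, mul_le_mul_of_nonneg_left hw3.1 hb]
          · nlinarith [mul_le_mul_of_nonneg_left hx3.2 ha, mul_le_mul_of_nonneg_left hw3.2 hb]
      · rintro z ⟨⟨hz1, hz2⟩, hz3⟩ hzF
        rw [hF] at hzF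
        rcases hzF with hzA | hzs
        · have h4 := hr' (ca y n v z) (cb y n v z) (by rw [abs_of_pos hz1]; exact hz2) hz3
          rw [← recon hD y z] at h4
          exact h4 hzA
        · have h4 := ((mem_base hD y hs₀ z).1 hzs).1
          linarith
      · have ht0 : 0 < min 1 (r / 2) := lt_min one_pos (by linarith)
        refine ⟨y + (min 1 (r / 2)) • n + (0 : ℝ) • v, ?_, ?_⟩
        · refine ⟨⟨?_, ?_⟩, ?_⟩
          · rw [ca_comb hD]
            exact ht0
          · rw [ca_comb hD]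
            exact lt_of_le_of_lt (min_le_right _ _) (by linarith)
          · rw [cb_comb hD]
            simp only [abs_zero]
            linarith
        · have h5 := h1 (min 1 (r / 2)) ht0 (min_le_left _ _)
          simpa using h5
    intro z hz1 hz2 hz3
    exact h3 z ⟨⟨hz1, hz2⟩, hz3⟩
  obtain ⟨ρ₁, hρ₁, H1⟩ := tube_h y n v (a := r / 2) (b := 1)
    (isClosed_closure (s := C)).isOpen_compl (fun t h3 h4 => h1 t (by linarith) h4)
  obtain ⟨ρ₂, hρ₂, H2⟩ := tube_h y n v (a := 0) (b := 1) hK.isOpen_compl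
    (fun t h3 h4 => h2 t h3 h4)
  set s := min (s₀ / 2) (min ρ₁ ρ₂) / 2 with hs
  have hspos : 0 < s := by
    have := lt_min (by linarith : 0 < s₀ / 2) (lt_min hρ₁ hρ₂)
    linarith
  have hss₀ : s ≤ s₀ / 2 := by
    have := min_le_left (s₀ / 2) (min ρ₁ ρ₂)
    linarith
  have hsρ₁ : s < ρ₁ := by
    have := (min_le_right (s₀ / 2) (min ρ₁ ρ₂)).trans (min_le_left _ _)
    linarith
  have hsρ₂ : s < ρ₂ := by
    have := (min_le_right (s₀ / 2) (min ρ₁ ρ₂)).trans (min_le_right _ _)
    linarith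
  have htri : ∀ z ∈ ctri y n v s, ca y n v z ≤ 1 ∧ |cb y n v z| ≤ s := by
    rintro z ⟨hz1, hz2⟩
    have h3 := (abs_nonneg (cb y n v z)).trans hz2
    have h4 := nonneg_of_mul_nonneg_right h3 hspos
    refine ⟨by linarith, hz2.trans ?_⟩
    nlinarith
  obtain ⟨A', hA', hF', hi'⟩ := hsplit s hspos (by linarith)
  have hT : ∀ z ∈ ctri y n v s, z ∈ closure C → ca y n v z = 0 := by
    intro z hz hzC
    obtain ⟨h3, h4⟩ := htri z hz
    by_contra h5
    have h6 : 0 < ca y n v z := lt_of_le_of_ne hz.1 (Ne.symm h5)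
    by_cases h7 : ca y n v z < r
    · exact HP z h6 h7 (h4.trans hss₀) hzC
    · have h8 := H1 (ca y n v z) (cb y n v z) (by linarith) h3 (lt_of_le_of_lt h4 hsρ₁)
      rw [← recon hD y z] at h8
      exact h8 hzC
  have hTK : ∀ z ∈ ctri y n v s, z ∉ K := by
    intro z hz hzK
    obtain ⟨h3, h4⟩ := htri z hz
    have h8 := H2 (ca y n v z) (cb y n v z) hz.1 h3 (lt_of_le_of_lt h4 hsρ₂)
    rw [← recon hD y z] at h8
    exact h8 hzK
  have hendg : ∀ σ : ℝ, |σ| = s → y + σ • v ∈ closure ((closure C ∪ ctri y n v s)ᶜ) := by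
    intro σ hσ
    have hc : Tendsto (fun ε : ℝ => y + ε • n + σ • v) (𝓝[>] 0) (𝓝 (y + σ • v)) := by
      have h1 : Continuous (fun ε : ℝ => y + ε • n + σ • v) := by fun_prop
      have h2 := h1.tendsto 0
      have h3 := h2.mono_left (nhdsWithin_le_nhds (s := Set.Ioi (0 : ℝ)))
      simpa using h3
    refine mem_closure_of_tendsto hc ?_
    have h4 : ∀ᶠ ε : ℝ in 𝓝[>] 0, ε < r := nhdsWithin_le_nhds (Iio_mem_nhds hr)
    filter_upwards [h4, self_mem_nhdsWithin] with ε h5 h6
    have h6' : 0 < ε := h6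
    rintro (h7 | h7)
    · refine HP _ ?_ ?_ ?_ h7
      · rw [ca_comb hD]; exact h6'
      · rw [ca_comb hD]; exact h5
      · rw [cb_comb hD, hσ]; exact hss₀
    · have h8 := h7.2
      rw [ca_comb hD, cb_comb hD, hσ] at h8
      nlinarith [mul_pos h6' hspos]
  have hend : ∀ z ∈ ({y - s • v, y + s • v} : Set E),
      z ∈ closure ((closure C ∪ ctri y n v s)ᶜ) := by
    rintro z (rfl | hz)
    · have h3 := hendg (-s) (by rw [abs_neg, abs_of_pos hspos])
      rw [neg_smul] at h3
      exact h3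
    · rw [Set.mem_singleton_iff] at hz
      subst hz
      exact hendg s (abs_of_pos hspos)
  obtain ⟨hR, hclo⟩ := attach_core hC hD hspos hA' hF' hi' hT hend
  refine ⟨_, hR, Set.subset_union_left, ?_, ?_⟩
  · rw [hclo, Set.disjoint_union_left]
    exact ⟨hCK, Set.disjoint_left.2 hTK⟩
  · intro t ht0 ht1
    right
    have e : y + t • n = y + t • n + (0 : ℝ) • v := by module
    rw [e]
    refine ⟨by rw [ca_comb hD]; exact ht0, ?_⟩
    rw [ca_comb hD, cb_comb hD, abs_zero]
    exact mul_pos hspos (by linarith)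

end Pool.Agent.Helper82_Obs
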