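import Pool.Agent.Helper82_Obs.Attach3

/-!
# Enlarging a polygonal region inside a ball
-/

namespace Pool.Agent.Helper82_Obs

open Topology Filter

theorem det_rot_eq_zero {g w : E} (hw : w ≠ 0) (h1 : det g w = 0) (h2 : det g (-w.2, w.1) = 0) :
    g = 0 := by
  unfold det at h1 h2
  simp only at h2
  have h3 : 0 < w.1 ^ 2 + w.2 ^ 2 := by
    by_contra h
    apply hw
    have a1 := sq_nonneg w.1
    have a2 := sq_nonneg w.2
    have b1 : w.1 ^ 2 = 0 := by linarith
    have b2 : w.2 ^ 2 = 0 := by linarith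
    ext
    · simpa using b1
    · simpa using b2
  have e1 : g.1 * (w.1 ^ 2 + w.2 ^ 2) = 0 := by linear_combination w.2 * h1 + w.1 * h2
  have e2 : g.2 * (w.1 ^ 2 + w.2 ^ 2) = 0 := by linear_combination (-w.1) * h1 + w.2 * h2
  ext
  · exact (mul_eq_zero.1 e1).resolve_right h3.ne'
  · exact (mul_eq_zero.1 e2).resolve_right h3.ne'

/-- a point of an open set which is seen from `x` without passing through a finite set -/
theorem exists_generic {U F : Set E} (hU : IsOpen U) (hF : F.Finite) {x a₀ : E} (ha : a₀ ∈ U)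
    (hx : x ∉ U) : ∃ a ∈ U, ∀ f ∈ F, f ≠ x → f ∉ segment ℝ x a := by
  have hw : a₀ - x ≠ 0 := by
    intro h
    rw [sub_eq_zero] at h
    rw [h] at ha
    exact hx ha
  set w := a₀ - x with hwdef
  set u : E := (-w.2, w.1) with hu
  have hcont : Continuous (fun τ : ℝ => a₀ + τ • u) := by fun_prop
  have hU' : IsOpen ((fun τ : ℝ => a₀ + τ • u) ⁻¹' U) := hU.preimage hcont
  obtain ⟨τ₀, hτ₀, hsub⟩ := Metric.isOpen_iff.1 hU' 0 (by simpa using ha)
  have hinf : (Set.Ioo 0 τ₀).Infinite := Set.Ioo_infinite hτ₀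
  set bad : Set ℝ := (fun f : E => -det (f - x) w / det (f - x) u) '' F with hbad
  obtain ⟨τ, hτ, hτb⟩ := (hinf.sdiff (hF.image _ : bad.Finite)).nonempty
  refine ⟨a₀ + τ • u, hsub (by
    simp only [Metric.mem_ball, Real.dist_eq, sub_zero]
    rw [abs_of_pos hτ.1]
    exact hτ.2), ?_⟩
  intro f hf hfx hseg
  rw [segment_eq_image_lineMap] at hseg
  obtain ⟨θ, hθ, hθ'⟩ := hseg
  simp only [AffineMap.lineMap_apply_module] at hθ'
  have e : f - x = θ • (w + τ • u) := by
    rw [← hθ', hwdef]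
    module
  have hdet : det (f - x) w + τ * det (f - x) u = 0 := by
    rw [e]
    simp only [det, Prod.smul_fst, Prod.fst_add, Prod.smul_snd, Prod.snd_add, smul_eq_mul]
    ring
  by_cases hd : det (f - x) u = 0
  · rw [hd, mul_zero, add_zero] at hdet
    exact hfx (sub_eq_zero.1 (det_rot_eq_zero hw hdet hd))
  · apply hτb
    refine ⟨f, hf, ?_⟩
    simp only
    rw [div_eq_iff hd]
    linarith

theorem Reg.capture_out {C K : Set E} (hC : Reg C) (hK : IsClosed K)
    (hCK : Disjoint (closure C) K) {c : E} {ρ : ℝ} (hB : ∀ z ∈ Metric.ball c ρ, z ∉ K)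
    (hm : (Metric.ball c ρ ∩ C).Nonempty) {x : E} (hx : x ∈ Metric.ball c ρ)
    (hxC : x ∉ closure C) :
    ∃ C', Reg C' ∧ C ⊆ C' ∧ Disjoint (closure C') K ∧ x ∈ C' := by
  obtain ⟨F, hF, hsplit⟩ := hC.poly.split
  obtain ⟨a₀, ha₀B, ha₀C⟩ := hm
  obtain ⟨a, ⟨haB, haC⟩, haF⟩ := exists_generic (U := Metric.ball c ρ ∩ C)
    (Metric.isOpen_ball.inter hC.isOpen) hF ⟨ha₀B, ha₀C⟩
    (fun h => hxC (subset_closure h.2))
  -- the first hit
  set γ : ℝ → E := fun t => x + t • (a - x) with hγ
  have hγc : Continuous γ := by rw [hγ]; fun_prop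
  set D : Set ℝ := Set.Icc 0 1 ∩ γ ⁻¹' (closure C) with hDdef
  have hDc : IsClosed D := isClosed_Icc.inter (isClosed_closure.preimage hγc)
  have h1D : (1 : ℝ) ∈ D := by
    refine ⟨⟨zero_le_one, le_rfl⟩, ?_⟩
    have : γ 1 = a := by rw [hγ]; simp
    rw [Set.mem_preimage, this]
    exact subset_closure haC
  have hDb : BddBelow D := ⟨0, fun t ht => ht.1.1⟩
  set t₀ := sInf D with ht₀
  have ht₀D : t₀ ∈ D := hDc.csInf_mem ⟨1, h1D⟩ hDb
  have hmin : ∀ t, 0 ≤ t → t < t₀ → γ t ∉ closure C := by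
    intro t h1 h2 h3
    have h4 : t ∈ D := ⟨⟨h1, h2.le.trans ht₀D.1.2⟩, h3⟩
    exact absurd (csInf_le hDb h4) (not_le.2 h2)
  have ht₀0 : 0 < t₀ := by
    rcases lt_or_eq_of_le ht₀D.1.1 with h | h
    · exact h
    · exfalso
      apply hxC
      have h2 := ht₀D.2
      rw [← h, Set.mem_preimage] at h2
      have : γ 0 = x := by rw [hγ]; simp
      rw [this] at h2
      exact h2
  set y := γ t₀ with hy
  have hyC : y ∉ C := by
    intro hyC
    have h1 : IsOpen (γ ⁻¹' C) := hC.isOpen.preimage hγc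
    obtain ⟨r, hr, hr'⟩ := Metric.isOpen_iff.1 h1 t₀ hyC
    set t := max 0 (t₀ - r / 2) with ht
    have h2 : t < t₀ := max_lt ht₀0 (by linarith)
    have h3 : t ∈ Metric.ball t₀ r := by
      rw [Metric.mem_ball, Real.dist_eq, abs_sub_comm, abs_of_pos (by linarith)]
      have := le_max_right 0 (t₀ - r / 2)
      linarith
    exact hmin t (le_max_left _ _) h2 (subset_closure (hr' h3))
  have hyF : y ∈ frontier C := by
    rw [hC.isOpen.frontier_eq]
    exact ⟨ht₀D.2, hyC⟩
  have hsegxa : ∀ t, 0 ≤ t → t ≤ 1 → γ t ∈ segment ℝ x a := by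
    intro t h1 h2
    rw [segment_eq_image_lineMap]
    refine ⟨t, ⟨h1, h2⟩, ?_⟩
    simp only [AffineMap.lineMap_apply_module, hγ]
    module
  have hax : a - x ≠ 0 := by
    intro h
    rw [sub_eq_zero] at h
    rw [h] at haC
    exact hxC (subset_closure haC)
  have hyx : y ≠ x := by
    intro h
    rw [hy, hγ] at h
    simp only [add_eq_left, smul_eq_zero] at h
    rcases h with h | h
    · exact ht₀0.ne' h
    · exact hax h
  have hyF' : y ∉ F := fun h => haF y h hyx (hsegxa t₀ ht₀D.1.1 ht₀D.1.2)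
  obtain ⟨v, hv, s₀, hs₀, hcut⟩ := hsplit y hyF hyF'
  -- the apex
  have hyxe : y - x = t₀ • (a - x) := by rw [hy, hγ]; module
  have hnb : IsOpen ((fun η : ℝ => x + η • (x - y)) ⁻¹' ((closure C)ᶜ ∩ Metric.ball c ρ)) :=
    (isClosed_closure.isOpen_compl.inter Metric.isOpen_ball).preimage (by fun_prop)
  obtain ⟨η₀, hη₀, hη⟩ := Metric.isOpen_iff.1 hnb 0 (by
    simp only [Set.mem_preimage, zero_smul, add_zero]
    exact ⟨hxC, hx⟩)
  have hballconv := convex_ball c ρ
  have hyB : y ∈ Metric.ball c ρ :=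
    hballconv.segment_subset hx haB (hsegxa t₀ ht₀D.1.1 ht₀D.1.2)
  set η := η₀ / 2 with hηdef
  have hηpos : 0 < η := by positivity
  have hηx : ∀ η', 0 ≤ η' → η' ≤ η → x + η' • (x - y) ∉ closure C ∧
      x + η' • (x - y) ∈ Metric.ball c ρ := by
    intro η' h1 h2
    have h3 : η' ∈ Metric.ball (0 : ℝ) η₀ := by
      rw [Metric.mem_ball, Real.dist_eq, sub_zero, abs_of_nonneg h1]
      linarith
    exact hη h3
  have hpt : ∀ t : ℝ, y + t • ((1 + η) • (x - y)) = x + ((1 + η) * t - 1) • (x - y) := by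
    intro t
    module
  have hbk : ∀ θ : ℝ, y + θ • (x - y) = γ ((1 - θ) * t₀) := by
    intro θ
    have e1 : x - y = -(t₀ • (a - x)) := by rw [← hyxe]; module
    rw [e1]
    have e2 : y = x + t₀ • (a - x) := by rw [← hyxe]; module
    rw [e2, hγ]
    module
  obtain ⟨C', hR, hCC', hCK', hmem⟩ := hC.attach hK hCK (y := y) (n := (1 + η) • (x - y)) hv hs₀
    hcut (by
      intro t h1 h2
      by_cases h3 : (1 + η) * t ≤ 1
      · rw [smul_smul, mul_comm t, hbk]
        apply hmin
        · apply mul_nonneg _ ht₀0.le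
          linarith
        · have : 0 < (1 + η) * t := by positivity
          nlinarith
      · rw [hpt]
        refine (hηx _ (by linarith) ?_).1
        nlinarith) (by
      intro t h1 h2
      apply hB
      by_cases h3 : (1 + η) * t ≤ 1
      · rw [smul_smul, mul_comm t, hbk]
        apply hballconv.segment_subset hx haB
        apply hsegxa
        · apply mul_nonneg _ ht₀0.le
          linarith
        · have h4 : 0 ≤ (1 + η) * t := by positivity
          have h5 := ht₀D.1.2
          nlinarith [ht₀D.1.1]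
      · rw [hpt]
        refine (hηx _ (by linarith) ?_).2
        nlinarith)
  refine ⟨C', hR, hCC', hCK', ?_⟩
  have h3 := hmem (1 / (1 + η)) (by positivity) (by
    rw [div_lt_one (by linarith)]
    linarith)
  have h4 : y + (1 / (1 + η)) • ((1 + η) • (x - y)) = x := by
    rw [smul_smul, one_div, inv_mul_cancel₀ (by linarith : (1 + η) ≠ 0)]
    module
  rw [h4] at h3
  exact h3

theorem Reg.capture_on {C K : Set E} (hC : Reg C) (hK : IsClosed K)
    (hCK : Disjoint (closure C) K) {F : Set E}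
    (hsplit : ∀ y ∈ frontier C, y ∉ F → ∃ v : E, v ≠ 0 ∧ ∃ s₀ : ℝ, 0 < s₀ ∧
      CutAt (frontier C) y v s₀) {x : E} (hx : x ∈ frontier C) (hxF : x ∉ F) :
    ∃ C', Reg C' ∧ C ⊆ C' ∧ Disjoint (closure C') K ∧ x ∈ C' := by
  obtain ⟨v, hv, s₀, hs₀, hcut⟩ := hsplit x hx hxF
  obtain ⟨A, hA, hFr, hi⟩ := hcut s₀ hs₀ le_rfl
  set n : E := (-v.2, v.1) with hn
  have hD : det n v ≠ 0 := by
    intro h
    apply hv
    have h1 : det v v = 0 := by unfold det; ring
    have h2 : det v n = 0 := by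
      unfold det at h ⊢
      linarith
    exact det_rot_eq_zero hv h1 h2
  have hxK : x ∉ K := fun h => Set.disjoint_left.1 hCK (frontier_subset_closure hx) h
  have hxA : x ∉ A := by
    intro hxA
    have e0 : x = x + (0 : ℝ) • v := by module
    have e1 : x = x + (0 : ℝ) • n + (0 : ℝ) • v := by module
    have e2 : x - s₀ • v = x + (0 : ℝ) • n + (-s₀) • v := by module
    have e3 : x + s₀ • v = x + (0 : ℝ) • n + s₀ • v := by module
    have h1 : x ∈ segment ℝ (x - s₀ • v) (x + s₀ • v) := by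
      have h0 := smul_mem_seg x v (s := s₀) (t := 0) (by simpa using hs₀.le)
      rw [← e0] at h0
      exact h0
    have hcx : cb x n v x = 0 := by
      have := cb_comb hD x 0 0
      rw [← e1] at this
      exact this
    rcases hi ⟨hxA, h1⟩ with h2 | h2
    · have h3 := congrArg (cb x n v) h2
      rw [e2, cb_comb hD, hcx] at h3
      linarith
    · rw [Set.mem_singleton_iff] at h2
      have h3 := congrArg (cb x n v) h2
      rw [e3, cb_comb hD, hcx] at h3
      linarith
  -- a small box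
  have hU : IsOpen (phi x n v ⁻¹' (Aᶜ ∩ Kᶜ)) :=
    (hA.isCompact.isClosed.isOpen_compl.inter hK.isOpen_compl).preimage (continuous_phi x n v)
  obtain ⟨r, hr, hbox⟩ := Metric.isOpen_iff.1 hU (0, 0) (by
    have : phi x n v (0, 0) = x := by unfold phi; module
    rw [Set.mem_preimage, this]
    exact ⟨hxA, hxK⟩)
  have hbox' : ∀ s t : ℝ, |s| < r → |t| < r → x + s • n + t • v ∉ A ∧ x + s • n + t • v ∉ K := by
    intro s t h1 h2
    have h3 : ((s, t) : ℝ × ℝ) ∈ Metric.ball ((0, 0) : ℝ × ℝ) r := by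
      rw [Metric.mem_ball, Prod.dist_eq, max_lt_iff]
      simpa [Real.dist_eq] using ⟨h1, h2⟩
    exact hbox h3
  -- sides
  have hside : ∀ σ : ℝ, (σ = 1 ∨ σ = -1) → (∃ z, z ∉ closure C ∧ 0 < σ * ca x n v z ∧
      σ * ca x n v z < r ∧ |cb x n v z| < r) →
      ∀ z, 0 < σ * ca x n v z → σ * ca x n v z < r → |cb x n v z| < r → z ∉ closure C := by
    intro σ hσ hex
    have habs : ∀ z, 0 < σ * ca x n v z → |ca x n v z| = σ * ca x n v z := by
      intro z hz
      rcases hσ with rfl | rfl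
      · rw [one_mul] at hz ⊢
        exact abs_of_pos hz
      · rw [abs_of_neg (by linarith)]
        ring
    have h3 : ∀ z ∈ {z | (0 < σ * ca x n v z ∧ σ * ca x n v z < r) ∧ |cb x n v z| < r},
        z ∉ closure C := by
      refine disjoint_of_meets hC.isOpen ?_ ?_ ?_
      · refine Convex.isPreconnected ?_
        rintro p ⟨⟨hx1, hx2⟩, hx3⟩ w ⟨⟨hw1, hw2⟩, hw3⟩ a b ha hb hab
        rw [abs_lt] at hx3 hw3
        have e1 : σ * (a * ca x n v p + b * ca x n v w) =
            a * (σ * ca x n v p) + b * (σ * ca x n v w) := by ring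
        rcases eq_or_lt_of_le ha with ha' | ha'
        · have hb1 : b = 1 := by linarith
          subst hb1
          rw [← ha', zero_smul, one_smul, zero_add]
          exact ⟨⟨hw1, hw2⟩, abs_lt.2 hw3⟩
        · have hb' : b = 1 - a := by linarith
          refine ⟨⟨?_, ?_⟩, ?_⟩
          · rw [ca_affine x n v p w hab, e1]
            nlinarith [mul_pos ha' hx1, mul_nonneg hb hw1.le]
          · rw [ca_affine x n v p w hab, e1]
            nlinarith [mul_lt_mul_of_pos_left hx2 ha', mul_le_mul_of_nonneg_left hw2.le hb]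
          · rw [cb_affine x n v p w hab, abs_lt]
            constructor
            · nlinarith [mul_lt_mul_of_pos_left hx3.1 ha', mul_le_mul_of_nonneg_left hw3.1.le hb]
            · nlinarith [mul_lt_mul_of_pos_left hx3.2 ha', mul_le_mul_of_nonneg_left hw3.2.le hb]
      · rintro z ⟨⟨hz1, hz2⟩, hz3⟩ hzF
        rw [hFr] at hzF
        rcases hzF with hzA | hzs
        · have h4 := hbox' (ca x n v z) (cb x n v z) (by rw [habs z hz1]; exact hz2) hz3
          rw [← recon hD x z] at h4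
          exact h4.1 hzA
        · have h4 := ((mem_base hD x hs₀ z).1 hzs).1
          rw [h4, mul_zero] at hz1
          exact lt_irrefl _ hz1
      · obtain ⟨z, h4, h5, h6, h7⟩ := hex
        exact ⟨z, ⟨⟨h5, h6⟩, h7⟩, h4⟩
    intro z hz1 hz2 hz3
    exact h3 z ⟨⟨hz1, hz2⟩, hz3⟩
  -- a point outside of the closure near x
  have hreg := hC.reg x hx
  rw [mem_closure_iff] at hreg
  have hV : IsOpen {z : E | |ca x n v z| < min r s₀ ∧ |cb x n v z| < min r s₀} :=
    (isOpen_lt (continuous_ca x n v).abs continuous_const).inter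
      (isOpen_lt (continuous_cb x n v).abs continuous_const)
  have hc0 : ca x n v x = 0 ∧ cb x n v x = 0 := by
    have e1 : x = x + (0 : ℝ) • n + (0 : ℝ) • v := by module
    have h1 := ca_comb hD x 0 0
    have h2 := cb_comb hD x 0 0
    rw [← e1] at h1 h2
    exact ⟨h1, h2⟩
  obtain ⟨w, ⟨hw1, hw2⟩, hw3⟩ := hreg _ hV (by
    have := lt_min hr hs₀
    refine ⟨?_, ?_⟩
    · rw [hc0.1, abs_zero]; exact this
    · rw [hc0.2, abs_zero]; exact this)
  have hwa : ca x n v w ≠ 0 := by
    intro h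
    apply hw3
    apply frontier_subset_closure
    rw [hFr]
    right
    rw [mem_base hD x hs₀]
    exact ⟨h, (hw2.trans_le (min_le_right _ _)).le⟩
  obtain ⟨σ, hσ, hσw⟩ : ∃ σ : ℝ, (σ = 1 ∨ σ = -1) ∧ 0 < σ * ca x n v w := by
    rcases lt_or_gt_of_ne hwa with h | h
    · exact ⟨-1, Or.inr rfl, by linarith⟩
    · exact ⟨1, Or.inl rfl, by linarith⟩
  have hσabs : |σ| = 1 := by
    rcases hσ with rfl | rfl <;> simp
  have hside' := hside σ hσ ⟨w, hw3, hσw, by
    have h1 : σ * ca x n v w = |ca x n v w| := by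
      rw [← abs_of_pos hσw, abs_mul, hσabs, one_mul]
    rw [h1]
    exact hw1.trans_le (min_le_left _ _), hw2.trans_le (min_le_left _ _)⟩
  have hσσ : σ * σ = 1 := by
    rcases hσ with rfl | rfl <;> norm_num
  have e4 : ∀ t : ℝ, x + t • ((σ * (r / 2)) • n) = x + (t * (σ * (r / 2))) • n + (0 : ℝ) • v := by
    intro t
    module
  obtain ⟨C', hR, hCC', hCK', hmem⟩ := hC.attach hK hCK (y := x) (n := (σ * (r / 2)) • n) hv hs₀
    hcut (by
      intro t h1 h2
      rw [e4]
      apply hside'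
      · rw [ca_comb hD]
        have : σ * (t * (σ * (r / 2))) = t * (r / 2) := by
          linear_combination (t * (r / 2)) * hσσ
        rw [this]
        positivity
      · rw [ca_comb hD]
        have : σ * (t * (σ * (r / 2))) = t * (r / 2) := by
          linear_combination (t * (r / 2)) * hσσ
        rw [this]
        nlinarith
      · rw [cb_comb hD, abs_zero]
        exact hr) (by
      intro t h1 h2
      rw [e4]
      refine (hbox' _ _ ?_ ?_).2
      · rw [abs_mul, abs_mul, hσabs, one_mul, abs_of_nonneg h1, abs_of_pos (by positivity)]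
        nlinarith
      · rw [abs_zero]
        exact hr)
  refine ⟨C', hR, hCC', hCK', ?_⟩
  have h3 := hmem 0 le_rfl one_pos
  simpa using h3

/-- A polygonal region which meets a ball disjoint from `K` can be enlarged so that it meets a
given segment inside this ball. -/
theorem Reg.capture {C K : Set E} (hC : Reg C) (hK : IsClosed K)
    (hCK : Disjoint (closure C) K) {c : E} {ρ : ℝ} (hB : ∀ z ∈ Metric.ball c ρ, z ∉ K)
    (hm : (Metric.ball c ρ ∩ C).Nonempty) {p q : E} (hpq : p ≠ q) (hp : p ∈ Metric.ball c ρ)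
    (hq : q ∈ Metric.ball c ρ) :
    ∃ C', Reg C' ∧ C ⊆ C' ∧ Disjoint (closure C') K ∧ (segment ℝ p q ∩ C').Nonempty := by
  by_cases h0 : (segment ℝ p q ∩ C).Nonempty
  · exact ⟨C, hC, subset_rfl, hCK, h0⟩
  by_cases h1 : ∃ x ∈ segment ℝ p q, x ∉ closure C
  · obtain ⟨x, hx, hxC⟩ := h1
    obtain ⟨C', a1, a2, a3, a4⟩ := hC.capture_out hK hCK hB hm
      ((convex_ball c ρ).segment_subset hp hq hx) hxC
    exact ⟨C', a1, a2, a3, ⟨x, hx, a4⟩⟩
  · push Not at h1
    obtain ⟨F, hF, hsplit⟩ := hC.poly.split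
    have hinf : (segment ℝ p q).Infinite := by
      rw [segment_eq_image_lineMap]
      refine Set.Infinite.image ?_ (Set.Icc_infinite zero_lt_one)
      intro s _ t _ hst
      exact AffineMap.lineMap_injective ℝ hpq hst
    obtain ⟨x, hx, hxF⟩ := (hinf.sdiff hF).nonempty
    have hxfr : x ∈ frontier C := by
      rw [hC.isOpen.frontier_eq]
      exact ⟨h1 x hx, fun h => h0 ⟨x, hx, h⟩⟩
    obtain ⟨C', a1, a2, a3, a4⟩ := hC.capture_on hK hCK hsplit hxfr hxF
    exact ⟨C', a1, a2, a3, ⟨x, hx, a4⟩⟩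

end Pool.Agent.Helper82_Obs
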