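import Pool.Agent.Helper82_Obs.Reach

/-!
# The complement of a large triangle
-/

namespace Pool.Agent.Helper82_Obs

open Topology Filter

/-- the complement of a large triangle -/
def outer (M : ℝ) : Set E := {z | z.1 < -M} ∪ {z | z.2 < -M} ∪ {z | M < z.1 + z.2}

theorem mem_outer (M : ℝ) (z : E) : z ∈ outer M ↔ z.1 < -M ∨ z.2 < -M ∨ M < z.1 + z.2 := by
  unfold outer
  simp only [Set.mem_union, Set.mem_ofPred_eq, or_assoc]

theorem isOpen_outer (M : ℝ) : IsOpen (outer M) :=
  ((isOpen_lt continuous_fst continuous_const).union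
    (isOpen_lt continuous_snd continuous_const)).union
    (isOpen_lt continuous_const (continuous_fst.add continuous_snd))

theorem lim_line (z d : E) : Tendsto (fun ε : ℝ => z + ε • d) (𝓝[>] 0) (𝓝 z) := by
  have h1 : Continuous (fun ε : ℝ => z + ε • d) := by fun_prop
  have h2 := h1.tendsto 0
  have h3 := h2.mono_left (nhdsWithin_le_nhds (s := Set.Ioi (0 : ℝ)))
  simpa using h3

theorem mem_closure_outer (M : ℝ) (z : E) :
    z ∈ closure (outer M) ↔ z.1 ≤ -M ∨ z.2 ≤ -M ∨ M ≤ z.1 + z.2 := by
  constructor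
  · intro hz
    have h1 : IsClosed ({z : E | z.1 ≤ -M} ∪ {z | z.2 ≤ -M} ∪ {z | M ≤ z.1 + z.2}) :=
      ((isClosed_le continuous_fst continuous_const).union
        (isClosed_le continuous_snd continuous_const)).union
        (isClosed_le continuous_const (continuous_fst.add continuous_snd))
    have h2 : outer M ⊆ {z : E | z.1 ≤ -M} ∪ {z | z.2 ≤ -M} ∪ {z | M ≤ z.1 + z.2} := by
      intro z hz
      rw [mem_outer] at hz
      simp only [Set.mem_union, Set.mem_ofPred_eq, or_assoc]
      rcases hz with h | h | h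
      · exact Or.inl h.le
      · exact Or.inr (Or.inl h.le)
      · exact Or.inr (Or.inr h.le)
    have h3 := closure_minimal h2 h1 hz
    simpa only [Set.mem_union, Set.mem_ofPred_eq, or_assoc] using h3
  · rintro (hz | hz | hz)
    · refine mem_closure_of_tendsto (lim_line z (-1, 0)) ?_
      filter_upwards [self_mem_nhdsWithin] with ε h6
      have h6' : 0 < ε := h6
      rw [mem_outer]
      left
      simp only [Prod.fst_add, Prod.smul_fst, smul_eq_mul]
      linarith
    · refine mem_closure_of_tendsto (lim_line z (0, -1)) ?_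
      filter_upwards [self_mem_nhdsWithin] with ε h6
      have h6' : 0 < ε := h6
      rw [mem_outer]
      right; left
      simp only [Prod.snd_add, Prod.smul_snd, smul_eq_mul]
      linarith
    · refine mem_closure_of_tendsto (lim_line z (1, 0)) ?_
      filter_upwards [self_mem_nhdsWithin] with ε h6
      have h6' : 0 < ε := h6
      rw [mem_outer]
      right; right
      simp only [Prod.fst_add, Prod.snd_add, Prod.smul_fst, Prod.smul_snd, smul_eq_mul]
      linarith

theorem mem_frontier_outer (M : ℝ) (z : E) : z ∈ frontier (outer M) ↔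
    (-M ≤ z.1 ∧ -M ≤ z.2 ∧ z.1 + z.2 ≤ M) ∧ (z.1 = -M ∨ z.2 = -M ∨ z.1 + z.2 = M) := by
  rw [(isOpen_outer M).frontier_eq, Set.mem_sdiff, mem_closure_outer, mem_outer]
  push Not
  constructor
  · rintro ⟨h1, h2, h3, h4⟩
    refine ⟨⟨h2, h3, h4⟩, ?_⟩
    rcases h1 with h | h | h
    · exact Or.inl (le_antisymm h h2)
    · exact Or.inr (Or.inl (le_antisymm h h3))
    · exact Or.inr (Or.inr (le_antisymm h4 h))
  · rintro ⟨⟨h2, h3, h4⟩, h1⟩
    refine ⟨?_, h2, h3, h4⟩
    rcases h1 with h | h | h
    · exact Or.inl h.le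
    · exact Or.inr (Or.inl h.le)
    · exact Or.inr (Or.inr h.ge)

theorem reg_outer {M : ℝ} (hM : 0 < M) : Reg (outer M) := by
  refine ⟨isOpen_outer M, ?_, ?_, ?_⟩
  · have c1 : IsConnected {z : E | z.1 < -M} := by
      refine ⟨⟨(-M - 1, 0), ?_⟩, Convex.isPreconnected ?_⟩
      · show -M - 1 < -M
        linarith
      · exact convex_halfSpace_lt (LinearMap.isLinear (LinearMap.fst ℝ ℝ ℝ)) _
    have c2 : IsConnected {z : E | z.2 < -M} := by
      refine ⟨⟨(0, -M - 1), ?_⟩, Convex.isPreconnected ?_⟩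
      · show -M - 1 < -M
        linarith
      · exact convex_halfSpace_lt (LinearMap.isLinear (LinearMap.snd ℝ ℝ ℝ)) _
    have c3 : IsConnected {z : E | M < z.1 + z.2} := by
      refine ⟨⟨(M + 1, 0), ?_⟩, Convex.isPreconnected ?_⟩
      · show M < M + 1 + 0
        linarith
      · exact convex_halfSpace_gt (LinearMap.isLinear (LinearMap.fst ℝ ℝ ℝ + LinearMap.snd ℝ ℝ ℝ)) _
    have c12 := IsConnected.union (s := {z : E | z.1 < -M}) (t := {z : E | z.2 < -M})
      ⟨(-M - 1, -M - 1), by
        constructor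
        · show -M - 1 < -M
          linarith
        · show -M - 1 < -M
          linarith⟩ c1 c2
    refine IsConnected.union ⟨(-M - 1, 2 * M + 2), Or.inl ?_, ?_⟩ c12 c3
    · show -M - 1 < -M
      linarith
    · show M < -M - 1 + (2 * M + 2)
      linarith
  · -- the polygon
    have sab : ∀ z : E, z ∈ segment ℝ ((-M, -M) : E) (2 * M, -M) ↔
        z.2 = -M ∧ -M ≤ z.1 ∧ z.1 ≤ 2 * M := by
      intro z
      rw [segment_eq_image_lineMap]
      constructor
      · rintro ⟨t, ht, rfl⟩
        simp only [AffineMap.lineMap_apply_module, Prod.smul_mk, Prod.mk_add_mk, smul_eq_mul]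
        refine ⟨by ring, ?_, ?_⟩
        · nlinarith [ht.1, ht.2]
        · nlinarith [ht.1, ht.2]
      · rintro ⟨h1, h2, h3⟩
        refine ⟨(z.1 + M) / (3 * M), ⟨by apply div_nonneg <;> linarith, by
          rw [div_le_one (by linarith)]; linarith⟩, ?_⟩
        simp only [AffineMap.lineMap_apply_module, Prod.smul_mk, Prod.mk_add_mk, smul_eq_mul]
        ext
        · simp only
          field_simp
          ring
        · simp only
          rw [h1]
          ring
    have sbc : ∀ z : E, z ∈ segment ℝ ((2 * M, -M) : E) (-M, 2 * M) ↔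
        z.1 + z.2 = M ∧ -M ≤ z.1 ∧ -M ≤ z.2 := by
      intro z
      rw [segment_eq_image_lineMap]
      constructor
      · rintro ⟨t, ht, rfl⟩
        simp only [AffineMap.lineMap_apply_module, Prod.smul_mk, Prod.mk_add_mk, smul_eq_mul]
        refine ⟨by ring, ?_, ?_⟩
        · nlinarith [ht.1, ht.2]
        · nlinarith [ht.1, ht.2]
      · rintro ⟨h1, h2, h3⟩
        refine ⟨(z.2 + M) / (3 * M), ⟨by apply div_nonneg <;> linarith, by
          rw [div_le_one (by linarith)]; linarith⟩, ?_⟩
        simp only [AffineMap.lineMap_apply_module, Prod.smul_mk, Prod.mk_add_mk, smul_eq_mul]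
        have hz1 : z.1 = M - z.2 := by linarith
        ext
        · simp only
          rw [hz1]
          field_simp
          ring
        · simp only
          field_simp
          ring
    have sca : ∀ z : E, z ∈ segment ℝ ((-M, 2 * M) : E) (-M, -M) ↔
        z.1 = -M ∧ -M ≤ z.2 ∧ z.2 ≤ 2 * M := by
      intro z
      rw [segment_eq_image_lineMap]
      constructor
      · rintro ⟨t, ht, rfl⟩
        simp only [AffineMap.lineMap_apply_module, Prod.smul_mk, Prod.mk_add_mk, smul_eq_mul]
        refine ⟨by ring, ?_, ?_⟩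
        · nlinarith [ht.1, ht.2]
        · nlinarith [ht.1, ht.2]
      · rintro ⟨h1, h2, h3⟩
        refine ⟨(2 * M - z.2) / (3 * M), ⟨by apply div_nonneg <;> linarith, by
          rw [div_le_one (by linarith)]; linarith⟩, ?_⟩
        simp only [AffineMap.lineMap_apply_module, Prod.smul_mk, Prod.mk_add_mk, smul_eq_mul]
        ext
        · simp only
          rw [h1]
          ring
        · simp only
          field_simp
          ring
    have hne1 : ((-M, -M) : E) ≠ (2 * M, -M) := by
      intro h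
      have := congrArg Prod.fst h
      simp only at this
      linarith
    have hne2 : ((2 * M, -M) : E) ≠ (-M, 2 * M) := by
      intro h
      have := congrArg Prod.fst h
      simp only at this
      linarith
    refine ⟨_, _, _, PolyArc.snoc (PolyArc.seg hne1) hne2 ?_, ?_, ?_⟩
    · rintro z ⟨h1, h2⟩
      rw [sbc] at h1
      rw [sab] at h2
      rw [Set.mem_singleton_iff]
      ext
      · simp only
        linarith [h1.1, h2.1]
      · exact h2.1
    · rintro z ⟨h1, h2⟩
      rw [sca] at h1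
      rcases h2 with h2 | h2
      · rw [sab] at h2
        left
        ext
        · exact h1.1
        · exact h2.1
      · rw [sbc] at h2
        right
        rw [Set.mem_singleton_iff]
        ext
        · exact h1.1
        · simp only
          linarith [h1.1, h2.1]
    · ext z
      rw [mem_frontier_outer]
      simp only [Set.mem_union]
      rw [sab, sbc, sca]
      constructor
      · rintro ⟨⟨h2, h3, h4⟩, h | h | h⟩
        · exact Or.inr ⟨h, h3, by linarith⟩
        · exact Or.inl (Or.inl ⟨h, h2, by linarith⟩)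
        · exact Or.inl (Or.inr ⟨h, h2, h3⟩)
      · rintro ((h | h) | h)
        · exact ⟨⟨h.2.1, h.1.ge, by linarith [h.1, h.2.2]⟩, Or.inr (Or.inl h.1)⟩
        · exact ⟨⟨h.2.1, h.2.2, h.1.le⟩, Or.inr (Or.inr h.1)⟩
        · exact ⟨⟨h.1.ge, h.2.1, by linarith [h.1, h.2.2]⟩, Or.inl h.1⟩
  · intro z hz
    rw [mem_frontier_outer] at hz
    obtain ⟨⟨h2, h3, h4⟩, -⟩ := hz
    refine mem_closure_of_tendsto (lim_line z (-z)) ?_
    have h5 : ∀ᶠ ε : ℝ in 𝓝[>] 0, ε < 1 := nhdsWithin_le_nhds (Iio_mem_nhds zero_lt_one)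
    filter_upwards [h5, self_mem_nhdsWithin] with ε h6 h7
    have h7' : 0 < ε := h7
    rw [Set.mem_compl_iff, mem_closure_outer]
    push Not
    simp only [Prod.fst_add, Prod.snd_add, Prod.smul_fst, Prod.smul_snd, Prod.fst_neg, Prod.snd_neg,
      smul_eq_mul]
    refine ⟨?_, ?_, ?_⟩
    · nlinarith [mul_pos h7' hM]
    · nlinarith [mul_pos h7' hM]
    · nlinarith [mul_pos h7' hM]

theorem outer_far {M : ℝ} (hM : 0 < M) (z : E) (hz : 2 * M < ‖z‖) : z ∈ outer M := by
  rw [mem_outer]
  by_contra h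
  push Not at h
  obtain ⟨h1, h2, h3⟩ := h
  rw [Prod.norm_def, Real.norm_eq_abs, Real.norm_eq_abs, lt_max_iff] at hz
  rcases hz with h4 | h4
  · have : |z.1| ≤ 2 * M := abs_le.2 ⟨by linarith, by linarith⟩
    linarith
  · have : |z.2| ≤ 2 * M := abs_le.2 ⟨by linarith, by linarith⟩
    linarith

theorem outer_disjoint {M : ℝ} (hM : 0 < M) {K : Set E} (hK : ∀ z ∈ K, ‖z‖ < M / 2) :
    Disjoint (closure (outer M)) K := by
  rw [Set.disjoint_right]
  intro z hz h
  have h1 := hK z hz
  rw [Prod.norm_def, Real.norm_eq_abs, Real.norm_eq_abs, max_lt_iff, abs_lt, abs_lt] at h1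
  rw [mem_closure_outer] at h
  rcases h with h | h | h <;> linarith [h1.1.1, h1.1.2, h1.2.1, h1.2.2]

/-- **Existence of polygonal regions.** -/
theorem exists_region {K : Set E} (hK : IsCompact K) {ι : Type*} [Finite ι] (p q x w : ι → E)
    (hpq : ∀ i, p i ≠ q i) (hw : ∀ i, w i ≠ 0) (hx : ∀ i, x i ∈ segment ℝ (p i) (q i))
    (hray : ∀ i, ∀ t : ℝ, 0 ≤ t → x i + t • w i ∉ K) :
    ∃ C, Reg C ∧ Disjoint (closure C) K ∧ ∀ i, (segment ℝ (p i) (q i) ∩ C).Nonempty := by
  obtain ⟨B, hB⟩ := hK.isBounded.exists_norm_le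
  set M : ℝ := 2 * (|B| + 1) with hM
  have hMpos : 0 < M := by positivity
  have hKM : ∀ z ∈ K, ‖z‖ < M / 2 := by
    intro z hz
    have := hB z hz
    have h2 := le_abs_self B
    rw [hM]
    linarith
  have key : ∀ s : Set ι, s.Finite → ∃ C, Reg C ∧ outer M ⊆ C ∧ Disjoint (closure C) K ∧
      ∀ i ∈ s, (segment ℝ (p i) (q i) ∩ C).Nonempty := by
    intro s hs
    induction s, hs using Set.Finite.induction_on with
    | empty =>
      exact ⟨outer M, reg_outer hMpos, subset_rfl, outer_disjoint hMpos hKM, by simp⟩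
    | @insert a s ha hs ih =>
      obtain ⟨C, h1, h2, h3, h4⟩ := ih
      obtain ⟨C', k1, k2, k3, k4⟩ := h1.reach hK h3 (R := 2 * M)
        (fun z hz => h2 (outer_far hMpos z hz)) (hw a) (hray a) (hpq a) (hx a)
      refine ⟨C', k1, h2.trans k2, k3, ?_⟩
      rintro i (rfl | hi)
      · exact k4
      · obtain ⟨z, hz1, hz2⟩ := h4 i hi
        exact ⟨z, hz1, k2 hz2⟩
  obtain ⟨C, h1, h2, h3, h4⟩ := key Set.univ Set.finite_univ
  exact ⟨C, h1, h3, fun i => h4 i (Set.mem_univ i)⟩

end Pool.Agent.Helper82_Obs
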