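import Pool.Agent.Helper82_Obs.Outer

/-!
# Simple closed polygons given by their vertices
-/

namespace Pool.Agent.Helper82_Obs

open Topology Filter

/-- `S` is a non-self-intersecting closed polygon: it has `n ≥ 3` vertices `p i`, indexed by the
integers modulo `n`, it is the union of the sides `[p i, p (i + 1)]`, consecutive sides meet exactly
in their common vertex, and non-consecutive sides are disjoint. -/
def IsSimplePolygon (S : Set E) : Prop :=
  ∃ (n : ℕ) (p : ZMod n → E), 3 ≤ n ∧
    (∀ i, segment ℝ (p i) (p (i + 1)) ∩ segment ℝ (p (i + 1)) (p (i + 2)) = {p (i + 1)}) ∧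
    (∀ i j, i ≠ j → j ≠ i + 1 → i ≠ j + 1 →
      Disjoint (segment ℝ (p i) (p (i + 1))) (segment ℝ (p j) (p (j + 1)))) ∧
    S = ⋃ i, segment ℝ (p i) (p (i + 1))

/-- the vertices of an arc -/
theorem PolyArc.vertices {S : Set E} {p q : E} (h : PolyArc S p q) :
    ∃ (k : ℕ) (f : ℕ → E), 1 ≤ k ∧ f 0 = p ∧ f k = q ∧
      (∀ z, z ∈ S ↔ ∃ i < k, z ∈ segment ℝ (f i) (f (i + 1))) ∧
      (∀ i < k, f i ≠ f (i + 1)) ∧
      (∀ i, i + 1 < k → segment ℝ (f i) (f (i + 1)) ∩ segment ℝ (f (i + 1)) (f (i + 2)) ⊆
        {f (i + 1)}) ∧
      (∀ i j, i + 2 ≤ j → j < k → Disjoint (segment ℝ (f i) (f (i + 1)))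
        (segment ℝ (f j) (f (j + 1)))) := by
  induction h with
  | @seg p q h =>
    refine ⟨1, fun i => if i = 0 then p else q, le_rfl, by simp, by simp, ?_, ?_, ?_, ?_⟩
    · intro z
      constructor
      · intro hz
        exact ⟨0, by omega, by simpa using hz⟩
      · rintro ⟨i, hi, hz⟩
        have : i = 0 := by omega
        subst this
        simpa using hz
    · intro i hi
      have : i = 0 := by omega
      subst this
      simpa using h
    · intro i hi
      omega
    · intro i j hi hj
      omega
  | @snoc S p q r hS h hi ih =>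
    obtain ⟨k, f, hk, f0, fk, hSf, hne, hcons, hdis⟩ := ih
    have g1 : ∀ i ≤ k, (fun i => if i ≤ k then f i else r) i = f i := by
      intro i hi
      simp [hi]
    have g2 : (fun i => if i ≤ k then f i else r) (k + 1) = r := by
      simp
    set g : ℕ → E := fun i => if i ≤ k then f i else r with hg
    -- `q` is only on the last side
    have hqlast : ∀ i < k, q ∈ segment ℝ (f i) (f (i + 1)) → i + 1 = k := by
      intro i hik hq
      by_contra hne'
      obtain ⟨k', rfl⟩ : ∃ k', k = k' + 1 := ⟨k - 1, by omega⟩
      have hq' : q ∈ segment ℝ (f k') (f (k' + 1)) := by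
        rw [fk]
        exact right_mem_segment ℝ _ _
      by_cases h1 : i + 1 = k'
      · subst h1
        have h2 := hcons i (by omega) ⟨hq, hq'⟩
        rw [Set.mem_singleton_iff] at h2
        exact hne (i + 1) (by omega) (by rw [fk, ← h2])
      · exact Set.disjoint_left.1 (hdis i k' (by omega) (by omega)) hq hq'
    refine ⟨k + 1, g, by omega, ?_, g2, ?_, ?_, ?_, ?_⟩
    · rw [g1 0 (by omega), f0]
    · intro z
      constructor
      · rintro (hz | hz)
        · obtain ⟨i, hik, hz⟩ := (hSf z).1 hz
          refine ⟨i, by omega, ?_⟩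
          rw [g1 i (by omega), g1 (i + 1) (by omega)]
          exact hz
        · refine ⟨k, by omega, ?_⟩
          rw [g1 k le_rfl, g2, fk]
          exact hz
      · rintro ⟨i, hik, hz⟩
        by_cases h1 : i = k
        · subst h1
          rw [g1 i le_rfl, g2, fk] at hz
          exact Or.inr hz
        · rw [g1 i (by omega), g1 (i + 1) (by omega)] at hz
          exact Or.inl ((hSf z).2 ⟨i, by omega, hz⟩)
    · intro i hik
      by_cases h1 : i = k
      · subst h1
        rw [g1 i le_rfl, g2, fk]
        exact h
      · rw [g1 i (by omega), g1 (i + 1) (by omega)]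
        exact hne i (by omega)
    · intro i hik
      by_cases h1 : i + 1 = k
      · have e2 : g (i + 2) = r := by
          have : i + 2 = k + 1 := by omega
          rw [this, g2]
        rw [g1 i (by omega), g1 (i + 1) (by omega), e2, h1, fk]
        rintro z ⟨hz1, hz2⟩
        refine hi ⟨hz2, ?_⟩
        rw [hSf]
        refine ⟨i, by omega, ?_⟩
        rw [h1, fk]
        exact hz1
      · rw [g1 i (by omega), g1 (i + 1) (by omega), g1 (i + 2) (by omega)]
        exact hcons i (by omega)
    · intro i j hij hjk
      by_cases h1 : j = k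
      · subst h1
        rw [g1 i (by omega), g1 (i + 1) (by omega), g1 j le_rfl, g2, fk, Set.disjoint_left]
        intro z hz1 hz2
        have h2 : z = q := hi ⟨hz2, (hSf z).2 ⟨i, by omega, hz1⟩⟩
        subst h2
        have := hqlast i (by omega) hz1
        omega
      · rw [g1 i (by omega), g1 (i + 1) (by omega), g1 j (by omega), g1 (j + 1) (by omega)]
        exact hdis i j hij (by omega)

theorem ClosedPoly.isSimplePolygon {S : Set E} (h : ClosedPoly S) : IsSimplePolygon S := by
  obtain ⟨A, p, q, hA, hi, rfl⟩ := h
  obtain ⟨k, f, hk, f0, fk, hSf, hne, hcons, hdis⟩ := hA.vertices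
  have hpq : p ≠ q := hA.ne
  have hk2 : 2 ≤ k := by
    by_contra hlt
    have hk1 : k = 1 := by omega
    subst hk1
    have hmid : midpoint ℝ p q ∈ segment ℝ p q := midpoint_mem_segment p q
    have h1 : midpoint ℝ p q ∈ A := by
      rw [hSf]
      refine ⟨0, by omega, ?_⟩
      rw [zero_add, f0, fk]
      exact hmid
    have h2 := hi ⟨by rw [segment_symm]; exact hmid, h1⟩
    rcases h2 with h2 | h2
    · rw [midpoint_eq_left_iff] at h2
      exact hpq h2
    · rw [Set.mem_singleton_iff, midpoint_eq_right_iff] at h2
      exact hpq h2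
  -- `p` is only on the first side, `q` only on the last one
  have hpfirst : ∀ i < k, p ∈ segment ℝ (f i) (f (i + 1)) → i = 0 := by
    intro i hik hp
    by_contra hi0
    have hp0 : p ∈ segment ℝ (f 0) (f 1) := by
      rw [f0]
      exact left_mem_segment ℝ _ _
    by_cases h1 : i = 1
    · subst h1
      have h2 := hcons 0 (by omega) ⟨hp0, hp⟩
      rw [Set.mem_singleton_iff] at h2
      exact hne 0 (by omega) (by rw [f0]; exact h2)
    · exact Set.disjoint_left.1 (hdis 0 i (by omega) hik) hp0 hp
  have hqlast : ∀ i < k, q ∈ segment ℝ (f i) (f (i + 1)) → i + 1 = k := by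
    intro i hik hq
    by_contra hne'
    obtain ⟨k', rfl⟩ : ∃ k', k = k' + 1 := ⟨k - 1, by omega⟩
    have hq' : q ∈ segment ℝ (f k') (f (k' + 1)) := by
      rw [fk]
      exact right_mem_segment ℝ _ _
    by_cases h1 : i + 1 = k'
    · subst h1
      have h2 := hcons i (by omega) ⟨hq, hq'⟩
      rw [Set.mem_singleton_iff] at h2
      exact hne (i + 1) (by omega) (by rw [fk, ← h2])
    · exact Set.disjoint_left.1 (hdis i k' (by omega) (by omega)) hq hq'
  -- the vertices
  have hval : ∀ i : ZMod (k + 1), i.val < k + 1 := fun i => ZMod.val_lt i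
  have hs1 : ∀ i : ZMod (k + 1), i.val < k → (i + 1).val = i.val + 1 := by
    intro i hik
    rw [ZMod.val_add, ZMod.val_one_eq_one_mod, Nat.mod_eq_of_lt (by omega : 1 < k + 1),
      Nat.mod_eq_of_lt (by omega)]
  have hs2 : ∀ i : ZMod (k + 1), i.val = k → (i + 1).val = 0 := by
    intro i hik
    rw [ZMod.val_add, ZMod.val_one_eq_one_mod, Nat.mod_eq_of_lt (by omega : 1 < k + 1), hik,
      Nat.mod_self]
  set P : ZMod (k + 1) → E := fun i => f i.val with hP
  have side1 : ∀ i : ZMod (k + 1), i.val < k →
      segment ℝ (P i) (P (i + 1)) = segment ℝ (f i.val) (f (i.val + 1)) := by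
    intro i hik
    simp only [hP]
    rw [hs1 i hik]
  have side2 : ∀ i : ZMod (k + 1), i.val = k → segment ℝ (P i) (P (i + 1)) = segment ℝ q p := by
    intro i hik
    simp only [hP]
    rw [hs2 i hik, hik, fk, f0]
  have e12 : ∀ i : ZMod (k + 1), i + 2 = i + 1 + 1 := by intro i; ring
  refine ⟨k + 1, P, by omega, ?_, ?_, ?_⟩
  · intro i
    rw [e12]
    apply Set.Subset.antisymm
    · rintro z ⟨hz1, hz2⟩
      rw [Set.mem_singleton_iff]
      rcases lt_or_eq_of_le (Nat.lt_succ_iff.1 (hval i)) with h1 | h1
      · rw [side1 i h1] at hz1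
        rcases lt_or_eq_of_le (Nat.lt_succ_iff.1 (hval (i + 1))) with h2 | h2
        · rw [side1 (i + 1) h2, hs1 i h1] at hz2
          rw [hs1 i h1] at h2
          have := hcons i.val h2 ⟨hz1, hz2⟩
          rw [Set.mem_singleton_iff] at this
          rw [this]
          simp only [hP]
          rw [hs1 i h1]
        · rw [side2 (i + 1) h2] at hz2
          have h3 := hi ⟨hz2, (hSf z).2 ⟨i.val, h1, hz1⟩⟩
          rcases h3 with h3 | h3
          · subst h3
            have := hpfirst i.val h1 hz1
            rw [hs1 i h1, this] at h2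
            omega
          · rw [Set.mem_singleton_iff] at h3
            rw [h3]
            simp only [hP]
            rw [h2, fk]
      · rw [side2 i h1] at hz1
        have h2 : (i + 1).val = 0 := hs2 i h1
        rw [side1 (i + 1) (by omega), h2] at hz2
        have h3 := hi ⟨hz1, (hSf z).2 ⟨0, by omega, hz2⟩⟩
        rcases h3 with h3 | h3
        · rw [h3]
          simp only [hP]
          rw [h2, f0]
        · rw [Set.mem_singleton_iff] at h3
          subst h3
          have := hqlast 0 (by omega) hz2
          omega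
    · rintro z hz
      rw [Set.mem_singleton_iff] at hz
      rw [hz]
      exact ⟨right_mem_segment ℝ _ _, left_mem_segment ℝ _ _⟩
  · -- non-consecutive sides
    have main : ∀ i j : ZMod (k + 1), i.val < j.val → j ≠ i + 1 → i ≠ j + 1 →
        Disjoint (segment ℝ (P i) (P (i + 1))) (segment ℝ (P j) (P (j + 1))) := by
      intro i j hij h1 h2
      have hik : i.val < k := by
        have := hval j
        omega
      rw [side1 i hik]
      have h1' : j.val ≠ i.val + 1 := by
        intro h
        apply h1
        apply ZMod.val_injective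
        rw [h, hs1 i hik]
      rcases lt_or_eq_of_le (Nat.lt_succ_iff.1 (hval j)) with h3 | h3
      · rw [side1 j h3]
        exact hdis i.val j.val (by omega) h3
      · rw [side2 j h3, Set.disjoint_left]
        intro z hz1 hz2
        have h4 := hi ⟨hz2, (hSf z).2 ⟨i.val, hik, hz1⟩⟩
        rcases h4 with h4 | h4
        · subst h4
          have h5 := hpfirst i.val hik hz1
          apply h2
          apply ZMod.val_injective
          rw [hs2 j h3, h5]
        · rw [Set.mem_singleton_iff] at h4
          subst h4
          have h5 := hqlast i.val hik hz1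
          omega
    intro i j hij h1 h2
    rcases lt_trichotomy i.val j.val with h | h | h
    · exact main i j h h1 h2
    · exact absurd (ZMod.val_injective _ h) hij
    · exact (main j i h h2 h1).symm
  · ext z
    simp only [Set.mem_union, Set.mem_iUnion]
    constructor
    · rintro (hz | hz)
      · obtain ⟨i, hik, hz⟩ := (hSf z).1 hz
        have hv : ((i : ℕ) : ZMod (k + 1)).val = i := by
          rw [ZMod.val_natCast, Nat.mod_eq_of_lt (by omega)]
        refine ⟨((i : ℕ) : ZMod (k + 1)), ?_⟩
        rw [side1 _ (by rw [hv]; exact hik), hv]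
        exact hz
      · have hv : ((k : ℕ) : ZMod (k + 1)).val = k := by
          rw [ZMod.val_natCast, Nat.mod_eq_of_lt (by omega)]
        refine ⟨((k : ℕ) : ZMod (k + 1)), ?_⟩
        rw [side2 _ hv]
        exact hz
    · rintro ⟨i, hz⟩
      rcases lt_or_eq_of_le (Nat.lt_succ_iff.1 (hval i)) with h1 | h1
      · rw [side1 i h1] at hz
        exact Or.inl ((hSf z).2 ⟨i.val, h1, hz⟩)
      · rw [side2 i h1] at hz
        exact Or.inr hz

end Pool.Agent.Helper82_Obs
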