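import Pool.Agent.Helper82_Obs.Capture

/-!
# Polygonal regions which meet given segments and avoid a compact set
-/

namespace Pool.Agent.Helper82_Obs

open Topology Filter

theorem isClosed_ray (x w : E) (hw : w ≠ 0) : IsClosed {z : E | ∃ t : ℝ, 0 ≤ t ∧ z = x + t • w} := by
  have h1 := (isClosedEmbedding_smul_left hw).isClosedMap (Set.Ici (0 : ℝ)) isClosed_Ici
  have h2 := (Homeomorph.addLeft x).isClosedMap _ h1
  refine (congrArg IsClosed ?_).mp h2
  ext z
  constructor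
  · rintro ⟨_, ⟨t, ht, rfl⟩, rfl⟩
    exact ⟨t, ht, rfl⟩
  · rintro ⟨t, ht, rfl⟩
    exact ⟨t • w, ⟨t, ht, rfl⟩, rfl⟩

theorem Reg.reach {C K : Set E} (hC : Reg C) (hK : IsCompact K) (hCK : Disjoint (closure C) K)
    {R : ℝ} (hfar : ∀ z : E, R < ‖z‖ → z ∈ C) {x w : E} (hw : w ≠ 0)
    (hray : ∀ t : ℝ, 0 ≤ t → x + t • w ∉ K) {p q : E} (hpq : p ≠ q) (hx : x ∈ segment ℝ p q) :
    ∃ C', Reg C' ∧ C ⊆ C' ∧ Disjoint (closure C') K ∧ (segment ℝ p q ∩ C').Nonempty := by
  have hdisj : Disjoint K {z : E | ∃ t : ℝ, 0 ≤ t ∧ z = x + t • w} := by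
    rw [Set.disjoint_left]
    rintro z hz ⟨t, ht, rfl⟩
    exact hray t ht hz
  obtain ⟨δ, hδ, hth⟩ := hdisj.exists_thickenings hK (isClosed_ray x w hw)
  have hball : ∀ t : ℝ, 0 ≤ t → ∀ z ∈ Metric.ball (x + t • w) δ, z ∉ K := by
    intro t ht z hz hzK
    refine Set.disjoint_left.1 hth (Metric.self_subset_thickening hδ K hzK) ?_
    rw [Metric.mem_thickening_iff]
    exact ⟨x + t • w, ⟨t, ht, rfl⟩, hz⟩
  have hwn : 0 < ‖w‖ := norm_pos_iff.2 hw
  set h : ℝ := δ / (4 * ‖w‖) with hh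
  have hhpos : 0 < h := by positivity
  have hhw : h * ‖w‖ = δ / 4 := by
    rw [hh]
    field_simp
  obtain ⟨N, hN⟩ := exists_nat_gt ((R + ‖x‖) / (h * ‖w‖))
  have hNfar : x + ((N : ℝ) * h) • w ∈ C := by
    apply hfar
    have h1 : ‖((N : ℝ) * h) • w‖ = N * (h * ‖w‖) := by
      rw [norm_smul, Real.norm_of_nonneg (by positivity)]
      ring
    have h2 : R + ‖x‖ < N * (h * ‖w‖) := by
      rwa [div_lt_iff₀ (by positivity)] at hN
    have h3 : ‖((N : ℝ) * h) • w‖ ≤ ‖x + ((N : ℝ) * h) • w‖ + ‖x‖ := by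
      calc ‖((N : ℝ) * h) • w‖ = ‖(x + ((N : ℝ) * h) • w) - x‖ := by congr 1; abel
        _ ≤ _ := norm_sub_le _ _
    linarith
  have hdist : ∀ a b : ℝ, dist (x + a • w) (x + b • w) = |a - b| * ‖w‖ := by
    intro a b
    rw [dist_eq_norm]
    have : x + a • w - (x + b • w) = (a - b) • w := by module
    rw [this, norm_smul, Real.norm_eq_abs]
  have key : ∀ k : ℕ, k ≤ N → ∃ C', Reg C' ∧ C ⊆ C' ∧ Disjoint (closure C') K ∧
      (Metric.ball (x + (((N - k : ℕ) : ℝ) * h) • w) (δ / 2) ∩ C').Nonempty := by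
    intro k
    induction k with
    | zero =>
      intro _
      refine ⟨C, hC, subset_rfl, hCK, ⟨_, Metric.mem_ball_self (by positivity), ?_⟩⟩
      simpa using hNfar
    | succ k ih =>
      intro hk
      obtain ⟨C₁, b1, b2, b3, ⟨z, hz1, hz2⟩⟩ := ih (by omega)
      have e1 : ((N - k : ℕ) : ℝ) = ((N - (k + 1) : ℕ) : ℝ) + 1 := by
        have : N - k = N - (k + 1) + 1 := by omega
        rw [this]
        push_cast
        ring
      set c : ℝ := ((N - (k + 1) : ℕ) : ℝ) * h with hc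
      have hc0 : 0 ≤ c := by positivity
      rw [e1] at hz1
      have e2 : (((N - (k + 1) : ℕ) : ℝ) + 1) * h = c + h := by rw [hc]; ring
      rw [e2] at hz1
      have hd : dist (x + (c + h) • w) (x + c • w) = δ / 4 := by
        rw [hdist]
        have : c + h - c = h := by ring
        rw [this, abs_of_pos hhpos, hhw]
      have hz1' : z ∈ Metric.ball (x + c • w) δ := by
        rw [Metric.mem_ball] at hz1 ⊢
        have := dist_triangle z (x + (c + h) • w) (x + c • w)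
        linarith
      have hne : x + c • w ≠ x + (c + h) • w := by
        intro heq
        rw [heq, dist_self] at hd
        linarith
      obtain ⟨C₂, c1, c2, c3, ⟨z', hz3, hz4⟩⟩ := b1.capture hK.isClosed b3 (c := x + c • w)
        (ρ := δ) (hball c hc0) ⟨z, hz1', hz2⟩ hne (Metric.mem_ball_self hδ) (by
          rw [Metric.mem_ball, hd]
          linarith)
      refine ⟨C₂, c1, b2.trans c2, c3, ⟨z', ?_, hz4⟩⟩
      refine (convex_ball _ _).segment_subset (Metric.mem_ball_self (by positivity)) ?_ hz3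
      rw [Metric.mem_ball, hd]
      linarith
  obtain ⟨C₁, b1, b2, b3, ⟨z, hz1, hz2⟩⟩ := key N le_rfl
  simp only [Nat.sub_self, Nat.cast_zero, zero_mul, zero_smul, add_zero] at hz1
  have hz1' : z ∈ Metric.ball x δ := Metric.ball_subset_ball (by linarith) hz1
  -- a short piece of the segment near x
  set θ : ℝ := min 1 (δ / (2 * (‖p - x‖ + ‖q - x‖ + 1))) with hθ
  have hθ0 : 0 < θ := lt_min one_pos (by positivity)
  have hθ1 : θ ≤ 1 := min_le_left _ _
  have hsmall : ∀ z : E, ‖z - x‖ ≤ ‖p - x‖ + ‖q - x‖ → x + θ • (z - x) ∈ Metric.ball x δ := by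
    intro z hz
    rw [Metric.mem_ball, dist_eq_norm]
    have : x + θ • (z - x) - x = θ • (z - x) := by abel
    rw [this, norm_smul, Real.norm_of_nonneg hθ0.le]
    have h1 : θ ≤ δ / (2 * (‖p - x‖ + ‖q - x‖ + 1)) := min_le_right _ _
    have h2 : θ * ‖z - x‖ ≤ δ / (2 * (‖p - x‖ + ‖q - x‖ + 1)) * (‖p - x‖ + ‖q - x‖ + 1) := by
      apply mul_le_mul h1 _ (norm_nonneg _) (by positivity)
      linarith
    have h3 : δ / (2 * (‖p - x‖ + ‖q - x‖ + 1)) * (‖p - x‖ + ‖q - x‖ + 1) = δ / 2 := by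
      have : (‖p - x‖ + ‖q - x‖ + 1) ≠ 0 := by positivity
      field_simp
    linarith
  have hseg : ∀ z ∈ segment ℝ p q, x + θ • (z - x) ∈ segment ℝ p q := by
    intro z hz
    have h1 := convex_segment (𝕜 := ℝ) p q hx hz (by linarith : 0 ≤ 1 - θ) hθ0.le (by ring)
    have h2 : (1 - θ) • x + θ • z = x + θ • (z - x) := by module
    rwa [h2] at h1
  have hpn := norm_nonneg (p - x)
  have hqn := norm_nonneg (q - x)
  obtain ⟨C₂, c1, c2, c3, ⟨z', hz3, hz4⟩⟩ := b1.capture hK.isClosed b3 (c := x) (ρ := δ)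
    (by have := hball 0 le_rfl; simpa using this) ⟨z, hz1', hz2⟩
    (p := x + θ • (p - x)) (q := x + θ • (q - x)) (by
      intro heq
      have h1 : θ • (p - q) = 0 := by
        have : θ • (p - q) = (x + θ • (p - x)) - (x + θ • (q - x)) := by module
        rw [this, heq, sub_self]
      rcases smul_eq_zero.1 h1 with h2 | h2
      · exact hθ0.ne' h2
      · exact hpq (sub_eq_zero.1 h2)) (hsmall p (by linarith)) (hsmall q (by linarith))
  refine ⟨C₂, c1, b2.trans c2, c3, ⟨z', ?_, hz4⟩⟩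
  exact (convex_segment (𝕜 := ℝ) p q).segment_subset (hseg p (left_mem_segment ℝ _ _))
    (hseg q (right_mem_segment ℝ _ _)) hz3

end Pool.Agent.Helper82_Obs
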