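import Pool.Agent.Helper82_Obs.Arc

/-!
# Cutting polygonal arcs and closed polygons at a point which is not a vertex
-/

namespace Pool.Agent.Helper82_Obs

/-- sub-segments of a line -/
theorem seg_param (p w : E) {a b : ℝ} (h : a ≤ b) :
    segment ℝ (p + a • w) (p + b • w) = (fun t : ℝ => p + t • w) '' Set.Icc a b := by
  rw [segment_eq_image_lineMap]
  ext z
  constructor
  · rintro ⟨t, ht, rfl⟩
    refine ⟨a + t * (b - a), ⟨by nlinarith [ht.1, ht.2], by nlinarith [ht.1, ht.2]⟩, ?_⟩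
    simp only [AffineMap.lineMap_apply_module]
    module
  · rintro ⟨t, ht, rfl⟩
    rcases eq_or_lt_of_le h with rfl | hlt
    · refine ⟨0, ⟨le_refl _, zero_le_one⟩, ?_⟩
      have : t = a := le_antisymm ht.2 ht.1
      subst this
      simp
    · have hne : b - a ≠ 0 := by linarith
      refine ⟨(t - a) / (b - a), ⟨by apply div_nonneg <;> linarith [ht.1], ?_⟩, ?_⟩
      · rw [div_le_one (by linarith)]
        linarith [ht.2]
      · simp only [AffineMap.lineMap_apply_module]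
        have e : t = a + (t - a) / (b - a) * (b - a) := by field_simp; ring
        have : p + t • w = p + (a + (t - a) / (b - a) * (b - a)) • w := by rw [← e]
        rw [this]
        module

theorem param_inj {p w : E} (hw : w ≠ 0) {s t : ℝ} (h : p + s • w = p + t • w) : s = t := by
  have h1 : (s - t) • w = 0 := by
    rw [sub_smul, sub_eq_zero]
    exact add_left_cancel h
  rcases smul_eq_zero.1 h1 with h2 | h2
  · linarith
  · exact absurd h2 hw

/-- intersection of two sub-segments of a line -/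
theorem seg_inter {p w : E} (hw : w ≠ 0) {a b c d : ℝ} (h1 : a ≤ b) (h2 : c ≤ d) {z : E}
    (h : z ∈ segment ℝ (p + a • w) (p + b • w) ∩ segment ℝ (p + c • w) (p + d • w)) :
    ∃ t : ℝ, a ≤ t ∧ t ≤ b ∧ c ≤ t ∧ t ≤ d ∧ z = p + t • w := by
  rw [seg_param p w h1, seg_param p w h2] at h
  obtain ⟨⟨t, ht, rfl⟩, ⟨t', ht', h'⟩⟩ := h
  have := param_inj hw h'
  subst this
  exact ⟨t', ht.1, ht.2, ht'.1, ht'.2, rfl⟩

/-- the arc can be cut at `y` -/
def SplitAt (S : Set E) (p q y : E) : Prop :=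
  ∃ v : E, v ≠ 0 ∧ ∃ s₀ : ℝ, 0 < s₀ ∧ ∀ s : ℝ, 0 < s → s ≤ s₀ → ∃ A B : Set E,
    PolyArc A p (y - s • v) ∧ PolyArc B (y + s • v) q ∧
    S = A ∪ segment ℝ (y - s • v) (y + s • v) ∪ B ∧
    A ∩ segment ℝ (y - s • v) (y + s • v) ⊆ {y - s • v} ∧
    segment ℝ (y - s • v) (y + s • v) ∩ B ⊆ {y + s • v} ∧ Disjoint A B

/-- cutting a segment -/
theorem seg_cut {p q y : E} (h : p ≠ q) (hy : y ∈ segment ℝ p q) (h1 : y ≠ p) (h2 : y ≠ q) :
    ∃ v : E, v ≠ 0 ∧ ∃ s₀ : ℝ, 0 < s₀ ∧ ∀ s : ℝ, 0 < s → s ≤ s₀ →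
      p ≠ y - s • v ∧ y + s • v ≠ q ∧
      segment ℝ p q = segment ℝ p (y - s • v) ∪ segment ℝ (y - s • v) (y + s • v) ∪
        segment ℝ (y + s • v) q ∧
      segment ℝ p (y - s • v) ∩ segment ℝ (y - s • v) (y + s • v) ⊆ {y - s • v} ∧
      segment ℝ (y - s • v) (y + s • v) ∩ segment ℝ (y + s • v) q ⊆ {y + s • v} ∧
      Disjoint (segment ℝ p (y - s • v)) (segment ℝ (y + s • v) q) ∧
      q ∉ segment ℝ p (y - s • v) ∧ p ∉ segment ℝ (y + s • v) q ∧
      p ∉ segment ℝ (y - s • v) (y + s • v) ∧ q ∉ segment ℝ (y - s • v) (y + s • v) := by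
  set w := q - p with hw
  have hw0 : w ≠ 0 := sub_ne_zero.2 (Ne.symm h)
  have hq : q = p + (1 : ℝ) • w := by rw [hw]; module
  have hp : p = p + (0 : ℝ) • w := by module
  have hpq : segment ℝ p q = (fun t : ℝ => p + t • w) '' Set.Icc 0 1 := by
    have := seg_param p w zero_le_one
    rw [← hp, ← hq] at this
    exact this
  rw [hpq] at hy
  obtain ⟨t, ht, rfl⟩ := hy
  have ht0 : 0 < t := by
    rcases lt_or_eq_of_le ht.1 with h' | h'
    · exact h'
    · exfalso; apply h1; rw [← h']; module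
  have ht1 : t < 1 := by
    rcases lt_or_eq_of_le ht.2 with h' | h'
    · exact h'
    · exfalso; apply h2; simp only [h']; rw [hq]
  refine ⟨w, hw0, min t (1 - t) / 2, by
    have := lt_min ht0 (by linarith : (0 : ℝ) < 1 - t)
    linarith, fun s hs hs' => ?_⟩
  have hst : s < t := by
    have := min_le_left t (1 - t)
    linarith
  have hst' : s < 1 - t := by
    have := min_le_right t (1 - t)
    linarith
  have e1 : p + t • w - s • w = p + (t - s) • w := by module
  have e2 : p + t • w + s • w = p + (t + s) • w := by module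
  simp only [e1, e2]
  have s1 : segment ℝ p (p + (t - s) • w) = (fun t : ℝ => p + t • w) '' Set.Icc 0 (t - s) := by
    have := seg_param p w (by linarith : (0 : ℝ) ≤ t - s)
    rw [← hp] at this
    exact this
  have s2 := seg_param p w (by linarith : t - s ≤ t + s)
  have s3 : segment ℝ (p + (t + s) • w) q = (fun t : ℝ => p + t • w) '' Set.Icc (t + s) 1 := by
    have := seg_param p w (by linarith : t + s ≤ 1)
    rw [← hq] at this
    exact this
  rw [s1, s2, s3, hpq]
  have inj : ∀ {a b : ℝ}, p + a • w = p + b • w → a = b := fun h => param_inj hw0 h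
  refine ⟨?_, ?_, ?_, ?_, ?_, ?_, ?_, ?_, ?_, ?_⟩
  · intro h'
    rw [hp] at h'
    have := inj (h'.trans (by module : p + (0 : ℝ) • w + (t - s) • w = p + (t - s) • w))
    linarith
  · intro h'
    rw [hq] at h'
    have := inj h'
    linarith
  · rw [← Set.image_union, ← Set.image_union]
    congr 1
    ext x
    simp only [Set.mem_Icc, Set.mem_union]
    constructor
    · rintro ⟨h3, h4⟩
      rcases le_total x (t - s) with h5 | h5
      · exact Or.inl (Or.inl ⟨h3, h5⟩)
      · rcases le_total x (t + s) with h6 | h6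
        · exact Or.inl (Or.inr ⟨h5, h6⟩)
        · exact Or.inr ⟨h6, h4⟩
    · rintro ((h3 | h3) | h3)
      · exact ⟨by linarith [h3.1], by linarith [h3.2]⟩
      · exact ⟨by linarith [h3.1], by linarith [h3.2]⟩
      · exact ⟨by linarith [h3.1], by linarith [h3.2]⟩
  · rintro z ⟨⟨a, ha, rfl⟩, ⟨b, hb, h'⟩⟩
    have := inj h'
    subst this
    have : b = t - s := le_antisymm ha.2 hb.1
    subst this
    rfl
  · rintro z ⟨⟨a, ha, rfl⟩, ⟨b, hb, h'⟩⟩
    have := inj h'
    subst this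
    have : b = t + s := le_antisymm ha.2 hb.1
    subst this
    rfl
  · rw [Set.disjoint_left]
    rintro z ⟨a, ha, rfl⟩ ⟨b, hb, h'⟩
    have := inj h'
    have h3 := ha.2
    have h4 := hb.1
    linarith
  · rintro ⟨a, ha, h'⟩
    rw [hq] at h'
    have := inj h'
    have h3 := ha.2
    linarith
  · rintro ⟨a, ha, h'⟩
    have := inj (h'.trans hp)
    have h3 := ha.1
    linarith
  · rintro ⟨a, ha, h'⟩
    have := inj (h'.trans hp)
    have h3 := ha.1
    linarith
  · rintro ⟨a, ha, h'⟩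
    rw [hq] at h'
    have := inj h'
    have h3 := ha.2
    linarith

theorem PolyArc.split {S : Set E} {p q : E} (h : PolyArc S p q) :
    ∃ F : Set E, F.Finite ∧ p ∈ F ∧ q ∈ F ∧ ∀ y ∈ S, y ∉ F → SplitAt S p q y := by
  induction h with
  | @seg p q h =>
    refine ⟨{p, q}, by simp, by simp, by simp, fun y hy hF => ?_⟩
    simp only [Set.mem_insert_iff, Set.mem_singleton_iff, not_or] at hF
    obtain ⟨v, hv, s₀, hs₀, H⟩ := seg_cut h hy hF.1 hF.2
    refine ⟨v, hv, s₀, hs₀, fun s hs hs' => ?_⟩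
    obtain ⟨a1, a2, a3, a4, a5, a6, -⟩ := H s hs hs'
    exact ⟨_, _, PolyArc.seg a1, PolyArc.seg a2, a3, a4, a5, a6⟩
  | @snoc S p q r hS h hi ih =>
    obtain ⟨F, hF, hp, hq, HF⟩ := ih
    refine ⟨F ∪ {r}, hF.union (by simp), Or.inl hp, Or.inr rfl, fun y hy hyF => ?_⟩
    simp only [Set.mem_union, Set.mem_singleton_iff, not_or] at hyF
    by_cases hyS : y ∈ S
    · obtain ⟨v, hv, s₀, hs₀, H⟩ := HF y hyS hyF.1
      refine ⟨v, hv, s₀, hs₀, fun s hs hs' => ?_⟩
      obtain ⟨A, B, b1, b2, b3, b4, b5, b6⟩ := H s hs hs'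
      have hBS : B ⊆ S := by rw [b3]; exact Set.subset_union_right
      have hAS : A ⊆ S := by rw [b3]; intro x hx; exact Or.inl (Or.inl hx)
      have hsS : segment ℝ (y - s • v) (y + s • v) ⊆ S := by
        rw [b3]; intro x hx; exact Or.inl (Or.inr hx)
      refine ⟨A, B ∪ segment ℝ q r, b1, PolyArc.snoc b2 h (fun x hx => hi ⟨hx.1, hBS hx.2⟩), ?_,
        b4, ?_, ?_⟩
      · rw [b3, Set.union_assoc _ B]
      · rintro x ⟨hx1, hx2 | hx2⟩
        · exact b5 ⟨hx1, hx2⟩
        · have hxq : x = q := hi ⟨hx2, hsS hx1⟩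
          subst hxq
          exact b5 ⟨hx1, b2.right_mem⟩
      · rw [Set.disjoint_left]
        rintro x hx1 (hx2 | hx2)
        · exact Set.disjoint_left.1 b6 hx1 hx2
        · have hxq : x = q := hi ⟨hx2, hAS hx1⟩
          subst hxq
          exact Set.disjoint_left.1 b6 hx1 b2.right_mem
    · have hyq : y ∈ segment ℝ q r := hy.resolve_left hyS
      have hneq : y ≠ q := by rintro rfl; exact hyS hS.right_mem
      obtain ⟨v, hv, s₀, hs₀, H⟩ := seg_cut h hyq hneq hyF.2
      refine ⟨v, hv, s₀, hs₀, fun s hs hs' => ?_⟩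
      obtain ⟨a1, a2, a3, a4, a5, a6, a7, a8, a9, a10⟩ := H s hs hs'
      have hsub1 : segment ℝ q (y - s • v) ⊆ segment ℝ q r := by
        rw [a3]; intro x hx; exact Or.inl (Or.inl hx)
      have hsub2 : segment ℝ (y - s • v) (y + s • v) ⊆ segment ℝ q r := by
        rw [a3]; intro x hx; exact Or.inl (Or.inr hx)
      have hsub3 : segment ℝ (y + s • v) r ⊆ segment ℝ q r := by
        rw [a3]; intro x hx; exact Or.inr hx
      refine ⟨S ∪ segment ℝ q (y - s • v), segment ℝ (y + s • v) r,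
        PolyArc.snoc hS a1 (fun x hx => hi ⟨hsub1 hx.1, hx.2⟩), PolyArc.seg a2, ?_, ?_, a5, ?_⟩
      · rw [a3]
        simp only [Set.union_assoc]
      · rintro x ⟨hx1 | hx1, hx2⟩
        · have hxq : x = q := hi ⟨hsub2 hx2, hx1⟩
          subst hxq
          exact absurd hx2 a9
        · exact a4 ⟨hx1, hx2⟩
      · rw [Set.disjoint_left]
        rintro x (hx1 | hx1) hx2
        · have hxq : x = q := hi ⟨hsub3 hx2, hx1⟩
          subst hxq
          exact a8 hx2
        · exact Set.disjoint_left.1 a6 hx1 hx2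

/-- `S` is a simple closed polygon -/
def ClosedPoly (S : Set E) : Prop :=
  ∃ (A : Set E) (p q : E), PolyArc A p q ∧ segment ℝ q p ∩ A ⊆ {p, q} ∧ S = A ∪ segment ℝ q p

theorem ClosedPoly.isCompact {S : Set E} (h : ClosedPoly S) : IsCompact S := by
  obtain ⟨A, p, q, hA, -, rfl⟩ := h
  exact hA.isCompact.union (isCompact_seg _ _)

/-- cutting a closed polygon -/
theorem ClosedPoly.split {S : Set E} (h : ClosedPoly S) :
    ∃ F : Set E, F.Finite ∧ ∀ y ∈ S, y ∉ F → ∃ v : E, v ≠ 0 ∧ ∃ s₀ : ℝ, 0 < s₀ ∧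
      ∀ s : ℝ, 0 < s → s ≤ s₀ → ∃ A : Set E, PolyArc A (y + s • v) (y - s • v) ∧
        S = A ∪ segment ℝ (y - s • v) (y + s • v) ∧
        A ∩ segment ℝ (y - s • v) (y + s • v) ⊆ {y - s • v, y + s • v} := by
  obtain ⟨S', p, q, hS', hi, rfl⟩ := h
  obtain ⟨F, hF, hp, hq, H⟩ := hS'.split
  refine ⟨F, hF, fun y hy hyF => ?_⟩
  by_cases hyS : y ∈ S'
  · obtain ⟨v, hv, s₀, hs₀, H'⟩ := H y hyS hyF
    refine ⟨v, hv, s₀, hs₀, fun s hs hs' => ?_⟩
    obtain ⟨A, B, b1, b2, b3, b4, b5, b6⟩ := H' s hs hs'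
    have hBS : B ⊆ S' := by rw [b3]; exact Set.subset_union_right
    have hAS : A ⊆ S' := by rw [b3]; intro x hx; exact Or.inl (Or.inl hx)
    have hsS : segment ℝ (y - s • v) (y + s • v) ⊆ S' := by
      rw [b3]; intro x hx; exact Or.inl (Or.inr hx)
    have hpA := b1.left_mem
    have hqB := b2.right_mem
    have hpq : q ≠ p := by
      rintro rfl
      exact Set.disjoint_left.1 b6 hpA hqB
    have c1 : PolyArc (B ∪ segment ℝ q p) (y + s • v) p := by
      refine PolyArc.snoc b2 hpq ?_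
      rintro x ⟨hx1, hx2⟩
      rcases hi ⟨hx1, hBS hx2⟩ with hx | hx
      · subst hx
        exact absurd hx2 (Set.disjoint_left.1 b6 hpA)
      · exact hx
    have c2 : PolyArc (B ∪ segment ℝ q p ∪ A) (y + s • v) (y - s • v) := by
      refine c1.concat b1 ?_
      rintro x ⟨hx1 | hx1, hx2⟩
      · exact absurd hx1 (Set.disjoint_left.1 b6 hx2)
      · rcases hi ⟨hx1, hAS hx2⟩ with hx | hx
        · exact hx
        · rw [Set.mem_singleton_iff] at hx
          subst hx
          exact absurd hqB (Set.disjoint_left.1 b6 hx2)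
    refine ⟨_, c2, ?_, ?_⟩
    · rw [b3]
      ext x
      simp only [Set.mem_union]
      tauto
    · rintro x ⟨(hx1 | hx1) | hx1, hx2⟩
      · exact Or.inr (b5 ⟨hx2, hx1⟩)
      · rcases hi ⟨hx1, hsS hx2⟩ with hx | hx
        · subst hx
          exact Or.inl (b4 ⟨hpA, hx2⟩)
        · rw [Set.mem_singleton_iff] at hx
          subst hx
          exact Or.inr (b5 ⟨hx2, hqB⟩)
      · exact Or.inl (b4 ⟨hx1, hx2⟩)
  · have hyq : y ∈ segment ℝ q p := hy.resolve_left hyS
    have h1 : y ≠ q := by rintro rfl; exact hyF hq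
    have h2 : y ≠ p := by rintro rfl; exact hyF hp
    have hpq : q ≠ p := hS'.ne.symm
    obtain ⟨v, hv, s₀, hs₀, H'⟩ := seg_cut hpq hyq h1 h2
    refine ⟨v, hv, s₀, hs₀, fun s hs hs' => ?_⟩
    obtain ⟨a1, a2, a3, a4, a5, a6, a7, a8, a9, a10⟩ := H' s hs hs'
    have hsub1 : segment ℝ q (y - s • v) ⊆ segment ℝ q p := by
      rw [a3]; intro x hx; exact Or.inl (Or.inl hx)
    have hsub2 : segment ℝ (y - s • v) (y + s • v) ⊆ segment ℝ q p := by
      rw [a3]; intro x hx; exact Or.inl (Or.inr hx)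
    have hsub3 : segment ℝ (y + s • v) p ⊆ segment ℝ q p := by
      rw [a3]; intro x hx; exact Or.inr hx
    have c1 : PolyArc (segment ℝ (y + s • v) p ∪ S') (y + s • v) q := by
      refine (PolyArc.seg a2).concat hS' ?_
      rintro x ⟨hx1, hx2⟩
      rcases hi ⟨hsub3 hx1, hx2⟩ with hx | hx
      · exact hx
      · rw [Set.mem_singleton_iff] at hx
        subst hx
        exact absurd hx1 a8
    have c2 : PolyArc (segment ℝ (y + s • v) p ∪ S' ∪ segment ℝ q (y - s • v)) (y + s • v)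
        (y - s • v) := by
      refine PolyArc.snoc c1 a1 ?_
      rintro x ⟨hx1, hx2 | hx2⟩
      · exact absurd hx2 (Set.disjoint_left.1 a6 hx1)
      · rcases hi ⟨hsub1 hx1, hx2⟩ with hx | hx
        · subst hx
          exact absurd hx1 a7
        · exact hx
    refine ⟨_, c2, ?_, ?_⟩
    · rw [a3]
      ext x
      simp only [Set.mem_union]
      tauto
    · rintro x ⟨(hx1 | hx1) | hx1, hx2⟩
      · exact Or.inr (a5 ⟨hx2, hx1⟩)
      · rcases hi ⟨hsub2 hx2, hx1⟩ with hx | hx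
        · subst hx
          exact absurd hx2 a10
        · rw [Set.mem_singleton_iff] at hx
          subst hx
          exact absurd hx2 a9
      · exact Or.inl (a4 ⟨hx1, hx2⟩)

end Pool.Agent.Helper82_Obs
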